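import Pool.Agent.H54.Hb.Pos
import Pool.Graph.R_pool_sql_team_seeded_b677cdb8.E8helper86.ZB.Man

/-!
# Abelian groups of exponent two and four acting on closed manifolds
-/

set_option autoImplicit false

namespace Pool.Agent.H54.Hb

open Metric Set Module Pool.Agent.Helper381 Pool.Agent.H185.ZM Pool.Agent.E8helper2.ZB
open Pool.Agent.E8helper86.ZB
open scoped Manifold ContDiff

/-- isotropy groups on finite posets: `|P|` divides `|P_x| c ^ (τ B)` for some `x` -/
def PosF (P : Type) [CommGroup P] (q c : ℕ) [Fact q.Prime] (τ : ℕ → ℕ) : Prop :=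
  ∀ (T : Type) [PartialOrder T] [MulAction P T] (Q : Set T), Q.Finite →
    Q.Nonempty → (∀ g : P, StrictMono (fun x : T => g • x)) → (∀ (g : P), ∀ x ∈ Q, g • x ∈ Q) →
      ∃ x ∈ Q, Nat.card P ∣ Nat.card (MulAction.stabilizer P x) *
        c ^ τ (∑ n ∈ Finset.range Q.ncard, finrank (ZMod q) (OrdCoh (ZMod q) Q n))

section

variable {M : Type} {E : Type} [MetricSpace M] [NormedAddCommGroup E] [NormedSpace ℝ E]
  {R : ℝ}

theorem geo_h (G : Geo M E R) [CompactSpace M] [Nonempty M] {P : Type} [CommGroup P] [Finite P]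
    (a : P →* (M ≃ᵢ M)) {q c : ℕ} [Fact q.Prime] {τ : ℕ → ℕ} (hP : PosF P q c τ) (s : ℕ)
    (h : ∀ (x : M) (Q : Subgroup P), (∀ g ∈ Q, a g x = x) → Nat.card Q ∣ s) :
    totalBetti (ZMod q) M ≠ ⊤ ∧ Nat.card P ∣ s * c ^ τ (totalBetti (ZMod q) M).toNat := by
  classical
  have hR := G.Rpos
  obtain ⟨F, hF, hFa⟩ := exists_invariant_net a (R / 4) (by linarith)
  have hρR : 4 * (R / 4) ≤ R := by linarith
  set ρ := R / 4 with hρ
  have hQ := Fam_finite F ρ
  letI act : MulAction P (Set M) :=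
    { smul := fun p C => a p '' C
      one_smul := fun C => by
        show a 1 '' C = C
        rw [map_one]
        exact Set.image_id C
      mul_smul := fun p q C => by
        show a (p * q) '' C = a p '' (a q '' C)
        rw [map_mul, Set.image_image]
        rfl }
  have hsm : ∀ p : P, StrictMono (fun C : Set M => p • C) := fun p =>
    (a p).injective.image_strictMono
  have hmem : ∀ (p : P), ∀ C ∈ Fam F ρ, p • C ∈ Fam F ρ := fun p C hC =>
    image_Fam F ρ (a p) (hFa p) hC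
  obtain ⟨C, hC, hdvd⟩ := hP (Set M) (Fam F ρ) hQ (fam_nonempty hF) hsm hmem
  -- total Betti number
  have e1 : ∀ n, finrank (ZMod q) (SingCoh (ZMod q) M n) =
      finrank (ZMod q) (OrdCoh (ZMod q) (Fam F ρ) n) := by
    intro n
    obtain ⟨e⟩ := G.nerve hρR hF (ZMod q) n
    exact LinearEquiv.finrank_eq e
  have hB := totalBetti_eq (Fam F ρ).ncard (G.betti_finite (ZMod q)).1 (fun n hn => by
    rw [e1]
    exact ordcoh_top hQ (ZMod q) n hn)
  have hs : Nat.card (MulAction.stabilizer P C) ∣ s := by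
    obtain ⟨y, _, hy⟩ := G.fam_fixed hρR hC
    apply h y
    intro g hg
    exact hy (a g) (hFa g) hg
  refine ⟨by rw [hB]; exact ENat.natCast_ne_top _, ?_⟩
  have h3 : (totalBetti (ZMod q) M).toNat =
      ∑ n ∈ Finset.range (Fam F ρ).ncard, finrank (ZMod q) (OrdCoh (ZMod q) (Fam F ρ) n) := by
    rw [hB, ENat.toNat_natCast]
    exact Finset.sum_congr rfl fun n _ => e1 n
  rw [h3]
  exact hdvd.trans (mul_dvd_mul_right hs _)

end

section

variable {E : Type} [NormedAddCommGroup E] [NormedSpace ℝ E] [FiniteDimensional ℝ E]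
  {M : Type} [TopologicalSpace M] [ChartedSpace E M] [IsManifold 𝓘(ℝ, E) ∞ M]

theorem smooth_h [CompactSpace M] [T2Space M] [ConnectedSpace M] {P : Type} [CommGroup P]
    [Finite P] {q c : ℕ} [Fact q.Prime] {τ : ℕ → ℕ} (hP : PosF P q c τ) {a : P → M → M} (ha : SmoothAction E a) (s : ℕ)
    (h : ∀ (x : M) (Q : Subgroup P), (∀ g ∈ Q, a g x = x) → Nat.card Q ∣ s) :
    totalBetti (ZMod q) M ≠ ⊤ ∧ Nat.card P ∣ s * c ^ τ (totalBetti (ZMod q) M).toNat := by
  obtain ⟨W, _, _, _, F, T, hF⟩ := exists_equi ha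
  let g := hF.metric
  obtain ⟨R, G⟩ := Q145.TN.exists_geo g
  let _ := Q145.TN.mS g
  let b : P →* (M ≃ᵢ M) :=
    { toFun := fun p =>
        { toFun := a p
          invFun := a p⁻¹
          left_inv := fun x => by rw [← ha.mul, inv_mul_cancel, ha.one]
          right_inv := fun x => by rw [← ha.mul, mul_inv_cancel, ha.one]
          isometry_toFun := fun x y => by
            show (Q145.TN.mS g).toPseudoMetricSpace.toPseudoEMetricSpace.edist _ _ =
              (Q145.TN.mS g).toPseudoMetricSpace.toPseudoEMetricSpace.edist _ _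
            rw [Q145.TN.edist_mS, Q145.TN.edist_mS]
            exact hF.dist_eq ha p x y }
      map_one' := by
        ext x
        exact ha.one x
      map_mul' := fun p q => by
        ext x
        exact ha.mul p q x }
  have : Nonempty M := inferInstance
  exact geo_h G b hP s (fun x Q hQ => h x Q fun q hq => hQ q hq)


/-- **exponent two** -/
theorem man_two [CompactSpace M] [T2Space M] [ConnectedSpace M] (P : Type) [CommGroup P] [Finite P]
    (hpow : ∀ x : P, x ^ 2 = 1) (a : P → M → M) (ha : SmoothAction E a) :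
    Nat.card P ∣ Nat.card (actKer ha) *
      2 ^ (finrank ℝ E + hb (totalBetti (ZMod 2) M).toNat) := by
  have : Fact (Nat.Prime 2) := ⟨Nat.prime_two⟩
  rw [pow_add]
  apply ker_step ha
  intro b hb1 hf
  refine (smooth_h (q := 2) (c := 2) (τ := hb) (fun T _ _ Q h1 h2 h3 h4 =>
    pos_two (P ⧸ actKer ha) (quot_pow 2 hpow _) T Q h1 h2 h3 h4) hb1 (2 ^ (finrank ℝ E)) ?_).2
  intro x Q hQ
  obtain ⟨V, _, _, _, ρ, hV, hρ⟩ := exists_isotropy hb1 hf x Q hQ
  rw [← hV]
  exact card_dvd_two_pow ρ (fun q => Subtype.ext (quot_pow 4 (fun x => by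
    rw [show (4 : ℕ) = 2 * 2 by norm_num, pow_mul, hpow x]; exact one_pow 2) _
      (q : P ⧸ actKer ha))) hρ

/-- **exponent four** -/
theorem man_four [CompactSpace M] [T2Space M] [ConnectedSpace M] (P : Type) [CommGroup P] [Finite P]
    (hpow : ∀ x : P, x ^ 4 = 1) (a : P → M → M) (ha : SmoothAction E a) :
    Nat.card P ∣ Nat.card (actKer ha) *
      2 ^ (finrank ℝ E + 2 * hb (totalBetti (ZMod 2) M).toNat) := by
  have : Fact (Nat.Prime 2) := ⟨Nat.prime_two⟩
  rw [pow_add, pow_mul]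
  apply ker_step ha
  intro b hb1 hf
  refine (smooth_h (q := 2) (c := 4) (τ := hb) (fun T _ _ Q h1 h2 h3 h4 =>
    pos_four (P ⧸ actKer ha) (quot_pow 4 hpow _) T Q h1 h2 h3 h4) hb1 (2 ^ (finrank ℝ E)) ?_).2
  intro x Q hQ
  obtain ⟨V, _, _, _, ρ, hV, hρ⟩ := exists_isotropy hb1 hf x Q hQ
  rw [← hV]
  exact card_dvd_two_pow ρ (fun q => Subtype.ext (quot_pow 4 hpow _ (q : P ⧸ actKer ha))) hρ

end

end Pool.Agent.H54.Hb
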