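import Pool.Agent.H54.Hb.Semi2
import Pool.Graph.R_pool_sql_team_seeded_b677cdb8.E8helper2.ZB.Pos4

/-!
# Isotropy groups of abelian 2-groups of exponent two and four acting on finite posets
-/

set_option autoImplicit false

namespace Pool.Agent.H54.Hb

open Module Pool.Agent.Helper381 Pool.Agent.E8helper2.ZB

theorem posH (G : Type) [CommGroup G] [Finite G] (hG : ∀ g : G, g ^ 2 = 1) (P : Type)
    [PartialOrder P] [MulAction G P] (Q : Set P) (hQ : Q.Finite) (hne : Q.Nonempty)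
    (hmono : ∀ g : G, StrictMono (fun x : P => g • x)) (hmem : ∀ (g : G), ∀ x ∈ Q, g • x ∈ Q) :
    ∃ x ∈ Q, Nat.card G ∣ Nat.card (MulAction.stabilizer G x) *
      2 ^ ((∑ n ∈ Finset.range Q.ncard, finrank (ZMod 2) (OrdCoh (ZMod 2) Q n)) / 2) := by
  classical
  have hfin : ∀ n, Finite (Ch Q n) := finite_Ch hQ
  let act : ∀ n, MulAction G (Ch Q n) := fun n =>
    { smul := fun g c => ⟨fun i => g • c.1 i, (hmono g).comp c.2.1,
        fun i => hmem _ _ (c.2.2 i)⟩
      one_smul := fun c => Subtype.ext (funext fun i => one_smul G _)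
      mul_smul := fun g h c => Subtype.ext (funext fun i => mul_smul g h _) }
  obtain ⟨x, hx⟩ := hne
  have hsm : StrictMono (fun _ : Fin 1 => x) := Subsingleton.strictMono _
  obtain ⟨q, σ, h⟩ := semiH (C := Ch Q) (cface (Q := Q)) (G := G)
    (fun n i j c hij => cface_cface n i j c hij) (fun n i g c => rfl) hG ⟨fun _ => x, hsm, fun _ => hx⟩
    Q.ncard (fun q hq => isEmpty_Ch hQ q hq)
  refine ⟨σ.1 0, σ.2.2 0, h.trans (mul_dvd_mul_right ?_ _)⟩
  let θ : MulAction.stabilizer G σ →* MulAction.stabilizer G (σ.1 0) :=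
    { toFun := fun g => ⟨g, congrArg (fun c : Ch Q q => c.1 0) g.2⟩
      map_one' := rfl
      map_mul' := fun a b => rfl }
  refine Subgroup.card_dvd_of_injective θ (fun a b hab => ?_)
  have := congrArg Subtype.val hab
  exact Subtype.ext this

theorem pos4H (G : Type) [CommGroup G] [Finite G] (hG : ∀ g : G, g ^ 4 = 1) (P : Type)
    [PartialOrder P] [MulAction G P] (Q : Set P) (hQ : Q.Finite) (hne : Q.Nonempty)
    (hmono : ∀ g : G, StrictMono (fun x : P => g • x)) (hmem : ∀ (g : G), ∀ x ∈ Q, g • x ∈ Q) :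
    ∃ x ∈ Q, Nat.card G ∣ Nat.card (MulAction.stabilizer G x) *
      4 ^ ((∑ n ∈ Finset.range Q.ncard, finrank (ZMod 2) (OrdCoh (ZMod 2) Q n)) / 2) := by
  classical
  have : Fact (Nat.Prime 2) := ⟨Nat.prime_two⟩
  set B := ∑ n ∈ Finset.range Q.ncard, finrank (ZMod 2) (OrdCoh (ZMod 2) Q n) with hB
  let f : G →* G := powMonoidHom 2
  let Ω : Subgroup G := f.ker
  have hΩ : ∀ g : G, g ∈ Ω ↔ g ^ 2 = 1 := fun g => Iff.rfl
  obtain ⟨x, hx, h1⟩ := posH Ω (fun g => Subtype.ext ((hΩ g).1 g.2)) P Q hQ hne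
    (fun g => hmono (g : G)) (fun g => hmem (g : G))
  let A : Subgroup G := (MulAction.stabilizer Ω x).map Ω.subtype
  have hA : ∀ g : G, g ∈ A ↔ g ^ 2 = 1 ∧ g • x = x := by
    intro g
    constructor
    · rintro ⟨a, ha, rfl⟩
      exact ⟨(hΩ a).1 a.2, ha⟩
    · rintro ⟨h2, h3⟩
      exact ⟨⟨g, (hΩ g).2 h2⟩, h3, rfl⟩
  have hcA : Nat.card A = Nat.card (MulAction.stabilizer Ω x) :=
    (Nat.card_congr ((MulAction.stabilizer Ω x).equivMapOfInjective Ω.subtype
      Ω.subtype_injective).toEquiv).symm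
  -- the fixed poset
  have := Fintype.ofFinite A
  let gs : List (P → P) := (Finset.univ : Finset A).toList.map (fun (a : A) (y : P) => (a : G) • y)
  have hgs : ∀ g ∈ gs, ∃ a ∈ A, g = fun y => a • y := by
    intro g hg
    obtain ⟨a, _, rfl⟩ := List.mem_map.1 hg
    exact ⟨a, a.2, rfl⟩
  have hgs' : ∀ a ∈ A, (fun y : P => a • y) ∈ gs := by
    intro a ha
    exact List.mem_map.2 ⟨⟨a, ha⟩, by simp, rfl⟩
  have hgood : GoodList Q gs := by
    refine ⟨?_, ?_, ?_, ?_⟩
    · intro g hg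
      obtain ⟨a, _, rfl⟩ := hgs g hg
      exact hmono a
    · intro g hg y
      obtain ⟨a, ha, rfl⟩ := hgs g hg
      show a • a • y = y
      rw [← mul_smul, ← pow_two, ((hA a).1 ha).1, one_smul]
    · intro g hg y hy
      obtain ⟨a, _, rfl⟩ := hgs g hg
      exact hmem a y hy
    · intro g hg g' hg' y
      obtain ⟨a, _, rfl⟩ := hgs g hg
      obtain ⟨a', _, rfl⟩ := hgs g' hg'
      show a • a' • y = a' • a • y
      rw [← mul_smul, ← mul_smul, mul_comm]
  have hfix : ∀ y, y ∈ fixS Q gs ↔ y ∈ Q ∧ ∀ a ∈ A, a • y = y := by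
    intro y
    constructor
    · rintro ⟨h2, h3⟩
      exact ⟨h2, fun a ha => h3 _ (hgs' a ha)⟩
    · rintro ⟨h2, h3⟩
      refine ⟨h2, fun g hg => ?_⟩
      obtain ⟨a, ha, rfl⟩ := hgs g hg
      exact h3 a ha
  have hβ := smith_list hQ gs hgood Q.ncard le_rfl
  have hxf : x ∈ fixS Q gs := (hfix x).2 ⟨hx, fun a ha => ((hA a).1 ha).2⟩
  have hQ' : (fixS Q gs).Finite := hQ.subset (fixS_subset _ _)
  have hfin : ∀ n, Finite (Ch (fixS Q gs) n) := finite_Ch hQ'
  have hmem' : ∀ (g : G), ∀ y ∈ fixS Q gs, g • y ∈ fixS Q gs := by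
    intro g y hy
    rw [hfix] at hy ⊢
    refine ⟨hmem g y hy.1, fun a ha => ?_⟩
    rw [← mul_smul, mul_comm, mul_smul, hy.2 a ha]
  -- the groups
  let N : Subgroup G := A.comap f
  have hN : ∀ g : G, g ∈ N ↔ g ^ 2 ∈ A := fun g => Iff.rfl
  let A' : Subgroup N := A.subgroupOf N
  have hAN : A ≤ N := by
    intro a ha
    rw [hN, ((hA a).1 ha).1]
    exact A.one_mem
  let actN : ∀ n, MulAction N (Ch (fixS Q gs) n) := fun n =>
    { smul := fun g c => ⟨fun i => (g : G) • c.1 i, (hmono (g : G)).comp c.2.1,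
        fun i => hmem' _ _ (c.2.2 i)⟩
      one_smul := fun c => Subtype.ext (funext fun i => one_smul G _)
      mul_smul := fun g h c => Subtype.ext (funext fun i => mul_smul (g : G) (h : G) _) }
  have htriv : ∀ n, ∀ a ∈ A', ∀ c : Ch (fixS Q gs) n, a • c = c := by
    intro n a ha c
    apply Subtype.ext
    funext i
    exact ((hfix _).1 (c.2.2 i)).2 a ha
  let ψ : ∀ n, N ⧸ A' →* Equiv.Perm (Ch (fixS Q gs) n) := fun n =>
    QuotientGroup.lift A' (MulAction.toPermHom N (Ch (fixS Q gs) n)) (fun a ha => by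
      ext c : 1
      exact htriv n a ha c)
  let actQ : ∀ n, MulAction (N ⧸ A') (Ch (fixS Q gs) n) := fun n =>
    MulAction.compHom _ (ψ n)
  have hactQ : ∀ n (g : N) (c : Ch (fixS Q gs) n), (g : N ⧸ A') • c = g • c := fun n g c => rfl
  have hsm : StrictMono (fun _ : Fin 1 => x) := Subsingleton.strictMono _
  obtain ⟨q, σ, h2⟩ := semiH (C := Ch (fixS Q gs)) (cface (Q := fixS Q gs)) (G := N ⧸ A')
    (fun n i j c hij => cface_cface n i j c hij) (by
      intro n i g c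
      obtain ⟨g, rfl⟩ := QuotientGroup.mk_surjective g
      rfl) (by
      intro g
      obtain ⟨g, rfl⟩ := QuotientGroup.mk_surjective g
      rw [← QuotientGroup.mk_pow, QuotientGroup.eq_one_iff]
      show ((g ^ 2 : N) : G) ∈ A
      exact g.2) ⟨fun _ => x, hsm, fun _ => hxf⟩ Q.ncard
    (fun q hq => isEmpty_Ch hQ' q ((Set.ncard_le_ncard (fixS_subset _ _) hQ).trans hq))
  have h2' : Nat.card (N ⧸ A') ∣ Nat.card (MulAction.stabilizer (N ⧸ A') σ) * 2 ^ (B / 2) :=
    h2.trans (mul_dvd_mul_left _ (pow_dvd_pow 2 (Nat.div_le_div_right hβ)))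
  refine ⟨σ.1 0, ((hfix _).1 (σ.2.2 0)).1, ?_⟩
  have h3 : Nat.card N ∣ Nat.card (MulAction.stabilizer N σ) * 2 ^ (B / 2) := by
    rw [card_stab_quot A' σ (actQ q) (hactQ q),
      Subgroup.card_eq_card_quotient_mul_card_subgroup A']
    obtain ⟨t, ht⟩ := h2'
    exact ⟨t, by rw [mul_right_comm, ht]; ring⟩
  have h4 : Nat.card (MulAction.stabilizer N σ) ∣
      Nat.card (MulAction.stabilizer G (σ.1 0)) := by
    let θ : MulAction.stabilizer N σ →* MulAction.stabilizer G (σ.1 0) :=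
      { toFun := fun g => ⟨(g : N), congrArg (fun c : Ch (fixS Q gs) q => c.1 0) g.2⟩
        map_one' := rfl
        map_mul' := fun a b => rfl }
    refine Subgroup.card_dvd_of_injective θ (fun a b hab => ?_)
    have := congrArg Subtype.val hab
    exact Subtype.ext (Subtype.ext this)
  -- the index of N
  have h5 : N.index ∣ 2 ^ (B / 2) := by
    have e1 : N.index = A.relIndex f.range := Subgroup.index_comap A f
    have hr : f.range ≤ Ω := by
      rintro _ ⟨g, rfl⟩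
      rw [hΩ]
      show (g ^ 2) ^ 2 = 1
      rw [← pow_mul]
      exact hG g
    have hAΩ : A ≤ Ω := fun a ha => (hΩ a).2 ((hA a).1 ha).1
    have e2 : A.relIndex f.range ∣ A.relIndex Ω := by
      have := Subgroup.relIndex_dvd_index_of_normal (A.subgroupOf Ω) (f.range.subgroupOf Ω)
      rwa [Subgroup.relIndex_subgroupOf hr] at this
    have e3 : A.relIndex Ω ∣ 2 ^ (B / 2) := by
      have e4 := Subgroup.card_mul_index (A.subgroupOf Ω)
      have e5 : Nat.card (A.subgroupOf Ω) = Nat.card A :=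
        Nat.card_congr (Subgroup.subgroupOfEquivOfLe hAΩ).toEquiv
      rw [← e4, e5, hcA] at h1
      exact Nat.dvd_of_mul_dvd_mul_left Nat.card_pos h1
    rw [e1]
    exact e2.trans e3
  have h6 := Subgroup.card_mul_index N
  rw [← h6, show (4 : ℕ) = 2 * 2 from rfl, mul_pow, ← mul_assoc]
  exact mul_dvd_mul (h3.trans (mul_dvd_mul_right h4 _)) h5


/-- if the total Betti number is odd then there is a fixed point -/
theorem posOdd (G : Type) [CommGroup G] [Finite G] (hG : IsPGroup 2 G) (P : Type)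
    [PartialOrder P] [MulAction G P] (Q : Set P) (hQ : Q.Finite)
    (hmono : ∀ g : G, StrictMono (fun x : P => g • x)) (hmem : ∀ (g : G), ∀ x ∈ Q, g • x ∈ Q)
    (hB : ¬ Even (∑ n ∈ Finset.range Q.ncard, finrank (ZMod 2) (OrdCoh (ZMod 2) Q n))) :
    ∃ x ∈ Q, Nat.card G = Nat.card (MulAction.stabilizer G x) := by
  classical
  have : Fact (Nat.Prime 2) := ⟨Nat.prime_two⟩
  have hfin : ∀ n, Finite (Ch Q n) := finite_Ch hQ
  let act : ∀ n, MulAction G (Ch Q n) := fun n =>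
    { smul := fun g c => ⟨fun i => g • c.1 i, (hmono g).comp c.2.1,
        fun i => hmem _ _ (c.2.2 i)⟩
      one_smul := fun c => Subtype.ext (funext fun i => one_smul G _)
      mul_smul := fun g h c => Subtype.ext (funext fun i => mul_smul g h _) }
  have hfS : Finite (Σ n, Ch Q n) := by
    let f : (Σ n, Ch Q n) → Σ n : Fin Q.ncard, Ch Q n := fun s => ⟨⟨s.1, by
          by_contra h
          exact (isEmpty_Ch hQ s.1 (not_lt.1 h)).false s.2⟩, s.2⟩
    refine Finite.of_injective f ?_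
    rintro ⟨n, σ⟩ ⟨m, τ⟩ h
    have h1 : n = m := congrArg (fun s : Σ n : Fin Q.ncard, Ch Q n => (s.1 : ℕ)) h
    subst h1
    have h2 : σ = τ := eq_of_heq (Sigma.mk.inj h).2
    rw [h2]
  obtain ⟨h1, _⟩ := range_dS (cface (Q := Q)) (k := ZMod 2) Q.ncard (fun q hq => isEmpty_Ch hQ q hq)
  have h3 := sum_finrank_coh (k := ZMod 2) (C := fun n => Ch Q n → ZMod 2)
    (fun n => altd (ZMod 2) (cface (Q := Q)) n) (fun n x => altd_altd (cface (Q := Q))
      (fun n i j c hij => cface_cface n i j c hij) n x) Q.ncard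
  have h6 : rkb (k := ZMod 2) (C := fun n => Ch Q n → ZMod 2)
      (fun n => altd (ZMod 2) (cface (Q := Q)) n) Q.ncard = 0 := by
    have := isEmpty_Ch hQ Q.ncard le_rfl
    exact rkb_top _ Module.finrank_zero_of_subsingleton
  have h7 : ¬ 2 ∣ Nat.card (Σ n, Ch Q n) := by
    rw [h1, ← h3, h6, add_zero]
    intro h
    apply hB
    rw [even_iff_two_dvd]
    exact (Nat.dvd_add_left (dvd_mul_right 2 _)).1 h
  obtain ⟨⟨n, c⟩, hc⟩ := hG.nonempty_fixed_point_of_prime_not_dvd_card (Σ n, Ch Q n) h7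
  refine ⟨c.1 0, c.2.2 0, ?_⟩
  have h8 : MulAction.stabilizer G (c.1 0) = ⊤ := by
    rw [eq_top_iff]
    intro g _
    have h9 : (⟨n, g • c⟩ : Σ n, Ch Q n) = ⟨n, c⟩ := hc g
    have h10 : g • c = c := eq_of_heq (Sigma.mk.inj h9).2
    exact congrArg (fun c : Ch Q n => c.1 0) h10
  rw [h8, Subgroup.card_top]

/-- half of `B` if `B` is even, zero if `B` is odd -/
def hb (B : ℕ) : ℕ := if Even B then B / 2 else 0

theorem pos_two (G : Type) [CommGroup G] [Finite G] (hG : ∀ g : G, g ^ 2 = 1) (P : Type)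
    [PartialOrder P] [MulAction G P] (Q : Set P) (hQ : Q.Finite) (hne : Q.Nonempty)
    (hmono : ∀ g : G, StrictMono (fun x : P => g • x)) (hmem : ∀ (g : G), ∀ x ∈ Q, g • x ∈ Q) :
    ∃ x ∈ Q, Nat.card G ∣ Nat.card (MulAction.stabilizer G x) *
      2 ^ hb (∑ n ∈ Finset.range Q.ncard, finrank (ZMod 2) (OrdCoh (ZMod 2) Q n)) := by
  unfold hb
  split_ifs with h
  · exact posH G hG P Q hQ hne hmono hmem
  · obtain ⟨x, hx, h1⟩ := posOdd G (fun g => ⟨1, by rw [pow_one]; exact hG g⟩) P Q hQ hmono hmem h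
    exact ⟨x, hx, by rw [pow_zero, mul_one, ← h1]⟩

theorem pos_four (G : Type) [CommGroup G] [Finite G] (hG : ∀ g : G, g ^ 4 = 1) (P : Type)
    [PartialOrder P] [MulAction G P] (Q : Set P) (hQ : Q.Finite) (hne : Q.Nonempty)
    (hmono : ∀ g : G, StrictMono (fun x : P => g • x)) (hmem : ∀ (g : G), ∀ x ∈ Q, g • x ∈ Q) :
    ∃ x ∈ Q, Nat.card G ∣ Nat.card (MulAction.stabilizer G x) *
      4 ^ hb (∑ n ∈ Finset.range Q.ncard, finrank (ZMod 2) (OrdCoh (ZMod 2) Q n)) := by
  unfold hb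
  split_ifs with h
  · exact pos4H G hG P Q hQ hne hmono hmem
  · obtain ⟨x, hx, h1⟩ := posOdd G (fun g => ⟨2, hG g⟩) P Q hQ hmono hmem h
    exact ⟨x, hx, by rw [pow_zero, mul_one, ← h1]⟩

end Pool.Agent.H54.Hb
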