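import Pool.Agent.H54.Hb.Half
import Pool.Agent.H54.Zim.Ops
import Pool.Graph.R_seed8.Helper381.LES

/-!
# Free actions of elementary abelian 2-groups on semisimplicial sets
-/

set_option autoImplicit false

open Finset Module Matrix

namespace Pool.Agent.H54.Hb

open Pool.Agent.Helper381

theorem half_end {k : Type*} [Field k] [CharP k 2] {ι : Type*} [Fintype ι] [DecidableEq ι]
    [Nonempty ι] {r : ℕ} (hr : 0 < r) (d : (ι → k) →ₗ[k] (ι → k))
    (x b : Fin r → ((ι → k) →ₗ[k] (ι → k))) (z : ι → k)
    (hd : ∀ f, d (d f) = 0) (hxd : ∀ i f, x i (d f) = d (x i f))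
    (hxx : ∀ i j f, x i (x j f) = x j (x i f)) (hx2 : ∀ i f, x i (x i f) = 0)
    (hb : ∀ i f, x i (b i f) + b i (x i f) = f)
    (hxj : ∀ i j, j ≠ i → ∀ f, x j (b i f) = b i (x j f))
    (hnil : ∀ i, ∃ m : ℕ, ((d ∘ₗ b i + b i ∘ₗ d : Module.End k (ι → k)) ^ m) = 0)
    (hdz : d z = 0) (hxz : ∀ i, x i z = 0) (hz : ∀ f, d f ≠ z) :
    2 * (finrank k (LinearMap.range d) + r) ≤ Fintype.card ι := by
  let T := LinearMap.toMatrixAlgEquiv' (R := k) (n := ι)
  have hT : ∀ f u, T f *ᵥ u = f u := fun f u => LinearMap.toMatrix'_mulVec f u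
  have hmul : ∀ f g : Module.End k (ι → k), T f * T g = T (f * g) := fun f g => (map_mul T f g).symm
  have h := half (r := r) hr (T d) (fun i => T (x i)) (fun i => T (b i)) z
    (by rw [hmul, show (d : Module.End k (ι → k)) * d = 0 from LinearMap.ext hd, map_zero])
    (fun i => by
      rw [hmul, hmul]
      congr 1
      exact LinearMap.ext (hxd i))
    (fun i j => by
      rw [hmul, hmul]
      congr 1
      exact LinearMap.ext (hxx i j))
    (fun i => by
      rw [hmul, show (x i : Module.End k (ι → k)) * x i = 0 from LinearMap.ext (hx2 i), map_zero])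
    (fun i => by
      rw [hmul, hmul, ← map_add, ← map_one T]
      congr 1
      exact LinearMap.ext (hb i))
    (fun i j hij => by
      rw [hmul, hmul]
      congr 1
      exact LinearMap.ext (hxj i j hij))
    (fun i => by
      obtain ⟨m, hm⟩ := hnil i
      refine ⟨m, ?_⟩
      rw [hmul, hmul, ← map_add, ← map_pow]
      rw [show (d : Module.End k (ι → k)) * b i + (b i : Module.End k (ι → k)) * d =
        (d ∘ₗ b i + b i ∘ₗ d : Module.End k (ι → k)) from rfl, hm, map_zero])
    (by rw [hT, hdz]) (fun i => by rw [hT, hxz]) (fun f => by rw [hT]; exact hz f)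
  have h1 : (T d).rank = finrank k (LinearMap.range d) := by
    have h2 : (T d).mulVecLin = d := LinearMap.ext fun u => hT d u
    rw [Matrix.rank, h2]
  rw [h1] at h
  exact h

section semi

variable {C : ℕ → Type} (face : ∀ n, Fin (n + 2) → C (n + 1) → C n) (k : Type) [Field k]

/-- the coboundary of all degrees -/
def dS : ((Σ n, C n) → k) →ₗ[k] ((Σ n, C n) → k) where
  toFun f s := match s with
    | ⟨0, _⟩ => 0
    | ⟨n + 1, σ⟩ => altd k face n (fun τ => f ⟨n, τ⟩) σ
  map_add' f g := by
    funext ⟨n, σ⟩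
    cases n with
    | zero => simp
    | succ n =>
      change altd k face n ((fun τ => f ⟨n, τ⟩) + fun τ => g ⟨n, τ⟩) σ = _
      rw [map_add]
      rfl
  map_smul' c f := by
    funext ⟨n, σ⟩
    cases n with
    | zero => simp
    | succ n =>
      change altd k face n (c • fun τ => f ⟨n, τ⟩) σ = _
      rw [map_smul]
      rfl

variable {k}

theorem dS_zero (f : (Σ n, C n) → k) (σ : C 0) : dS face k f ⟨0, σ⟩ = 0 := rfl

theorem dS_succ (f : (Σ n, C n) → k) (n : ℕ) (σ : C (n + 1)) :
    dS face k f ⟨n + 1, σ⟩ = altd k face n (fun τ => f ⟨n, τ⟩) σ := rfl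

/-- the function `1` on the vertices -/
def zS (C : ℕ → Type) (k : Type) [Field k] : (Σ n, C n) → k
  | ⟨0, _⟩ => 1
  | ⟨_ + 1, _⟩ => 0

theorem dS_dS (hface : ∀ n (i j : Fin (n + 2)) (σ : C (n + 2)), i ≤ j →
      face n i (face (n + 1) j.succ σ) = face n j (face (n + 1) i.castSucc σ))
    (f : (Σ n, C n) → k) : dS face k (dS face k f) = 0 := by
  funext ⟨n, σ⟩
  cases n with
  | zero => rfl
  | succ n =>
    rw [dS_succ]
    cases n with
    | zero =>
      have : (fun τ : C 0 => dS face k f ⟨0, τ⟩) = 0 := funext fun τ => rfl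
      rw [this, map_zero]
      rfl
    | succ n =>
      have : (fun τ : C (n + 1) => dS face k f ⟨n + 1, τ⟩) = altd k face n (fun τ => f ⟨n, τ⟩) :=
        funext fun τ => rfl
      rw [this, altd_altd face hface]
      rfl

theorem dS_z : dS face k (zS C k) = 0 := by
  funext ⟨n, σ⟩
  cases n with
  | zero => rfl
  | succ n =>
    rw [dS_succ]
    cases n with
    | zero =>
      have : (fun τ : C 0 => zS C k ⟨0, τ⟩) = fun _ => 1 := funext fun τ => rfl
      rw [this, altd_apply]
      simp
    | succ n =>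
      have : (fun τ : C (n + 1) => zS C k ⟨n + 1, τ⟩) = 0 := funext fun τ => rfl
      rw [this, map_zero]
      rfl

theorem range_dS [∀ n, Finite (C n)] [Finite (Σ n, C n)] (N : ℕ)
    (hN : ∀ q, N ≤ q → IsEmpty (C q)) :
    Nat.card (Σ n, C n) = ∑ n ∈ range N, finrank k (C n → k) ∧
    ∑ n ∈ range N, finrank k (LinearMap.range (altd k face n)) ≤
      finrank k (LinearMap.range (dS face k)) := by
  classical
  have : Fintype (Σ n, C n) := Fintype.ofFinite _
  have : ∀ n, Fintype (C n) := fun n => Fintype.ofFinite _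
  have h1 : Nat.card (Σ n, C n) = ∑ n ∈ range N, finrank k (C n → k) := by
    have e : (Σ n, C n) ≃ Σ n : Fin N, C n :=
      { toFun := fun s => ⟨⟨s.1, by
          by_contra h
          exact (hN s.1 (not_lt.1 h)).false s.2⟩, s.2⟩
        invFun := fun s => ⟨s.1, s.2⟩
        left_inv := fun s => rfl
        right_inv := fun s => rfl }
    rw [Nat.card_congr e, Nat.card_eq_fintype_card, Fintype.card_sigma,
      ← Fin.sum_univ_eq_sum_range (fun n => finrank k (C n → k)) N]
    exact Finset.sum_congr rfl fun n _ => by rw [Module.finrank_fintype_fun_eq_card]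
  refine ⟨h1, ?_⟩
  have h2 := LinearMap.finrank_range_add_finrank_ker (dS face k)
  rw [Module.finrank_fintype_fun_eq_card, ← Nat.card_eq_fintype_card, h1] at h2
  have h3 : finrank k (LinearMap.ker (dS face k)) ≤
      ∑ n ∈ range N, finrank k (LinearMap.ker (altd k face n)) := by
    have hmem : ∀ (u : LinearMap.ker (dS face k)) (n : Fin N),
        (fun τ : C n => u.1 ⟨n, τ⟩) ∈ LinearMap.ker (altd k face n) := by
      intro u n
      rw [LinearMap.mem_ker]
      funext σ
      exact congrFun (LinearMap.mem_ker.1 u.2) ⟨n + 1, σ⟩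
    let F : LinearMap.ker (dS face k) →ₗ[k] ∀ n : Fin N, LinearMap.ker (altd k face (n : ℕ)) :=
      { toFun := fun u n => ⟨fun τ => u.1 ⟨n, τ⟩, hmem u n⟩
        map_add' := fun _ _ => rfl
        map_smul' := fun _ _ => rfl }
    have hF : Function.Injective F := by
      intro u w huw
      apply Subtype.ext
      funext ⟨n, σ⟩
      have hn : n < N := by
        by_contra h
        exact (hN n (not_lt.1 h)).false σ
      have := congrFun (congrArg Subtype.val (congrFun huw ⟨n, hn⟩)) σ
      exact this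
    have h4 := LinearMap.finrank_le_finrank_of_injective hF
    rw [Module.finrank_pi_fintype,
      Fin.sum_univ_eq_sum_range (fun n => finrank k (LinearMap.ker (altd k face n))) N] at h4
    exact h4
  have h5 : ∑ n ∈ range N, finrank k (LinearMap.range (altd k face n)) +
      ∑ n ∈ range N, finrank k (LinearMap.ker (altd k face n)) =
      ∑ n ∈ range N, finrank k (C n → k) := by
    rw [← Finset.sum_add_distrib]
    exact Finset.sum_congr rfl fun n _ => LinearMap.finrank_range_add_finrank_ker _
  omega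

end semi

/-- **free actions of `(ℤ/2)^r` on semisimplicial sets** -/
theorem semi_free {C : ℕ → Type} [∀ n, Finite (C n)]
    (face : ∀ n, Fin (n + 2) → C (n + 1) → C n)
    (hface : ∀ n (i j : Fin (n + 2)) (σ : C (n + 2)), i ≤ j →
      face n i (face (n + 1) j.succ σ) = face n j (face (n + 1) i.castSucc σ))
    (v : C 0) (N : ℕ) (hN : ∀ q, N ≤ q → IsEmpty (C q))
    {G : Type} [CommGroup G] [∀ n, MulAction G (C n)]
    (hact : ∀ n i (g : G) σ, face n i (g • σ) = g • face n i σ) {r : ℕ} (g : Fin r → G)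
    (a : Fin r → (Σ n, C n) → ZMod 2) (hg2 : ∀ i n (σ : C n), g i • g i • σ = σ)
    (ha : ∀ i j n (σ : C n), a i ⟨n, g j • σ⟩ = a i ⟨n, σ⟩ + if i = j then 1 else 0) :
    2 * r ≤ ∑ n ∈ range N, finrank (ZMod 2)
      (Coh (ZMod 2) (fun n => C n → ZMod 2) (fun n => altd (ZMod 2) face n) n) := by
  classical
  rcases Nat.eq_zero_or_pos r with h0 | hr
  · subst h0; simp
  have hfS : Finite (Σ n, C n) := by
    let f : (Σ n, C n) → Σ n : Fin N, C n := fun s => ⟨⟨s.1, by
          by_contra h
          exact (hN s.1 (not_lt.1 h)).false s.2⟩, s.2⟩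
    refine Finite.of_injective f ?_
    rintro ⟨n, σ⟩ ⟨m, τ⟩ h
    have h1 : n = m := congrArg (fun s : Σ n : Fin N, C n => (s.1 : ℕ)) h
    subst h1
    have h2 : σ = τ := eq_of_heq (Sigma.mk.inj h).2
    rw [h2]
  have hft : Fintype (Σ n, C n) := Fintype.ofFinite _
  have hne : Nonempty (Σ n, C n) := ⟨⟨0, v⟩⟩
  have hs : ∀ (u : G) (n : ℕ) (σ : C n), u • (⟨n, σ⟩ : Σ n, C n) = ⟨n, u • σ⟩ := fun _ _ _ => rfl
  have two : ∀ c : ZMod 2, c + c = 0 := by decide
  have neg : ∀ c : ZMod 2, -c = c := by decide
  let x : Fin r → (((Σ n, C n) → ZMod 2) →ₗ[ZMod 2] ((Σ n, C n) → ZMod 2)) :=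
    fun i => Zim.xo (ZMod 2) (g i)
  let b : Fin r → (((Σ n, C n) → ZMod 2) →ₗ[ZMod 2] ((Σ n, C n) → ZMod 2)) :=
    fun i => Zim.Ao (ZMod 2) 2 (g i) (a i)
  have hx : ∀ i f s, x i f s = f (g i • s) - f s := fun i f s => rfl
  have hbb : ∀ i f s, b i f s = if a i s = -1 then f (g i • s) else 0 := fun i f s => rfl
  have hg2' : ∀ i (s : Σ n, C n), g i • g i • s = s := by
    rintro i ⟨n, σ⟩
    rw [hs, hs, hg2]
  have ha' : ∀ i j (s : Σ n, C n), a i (g j • s) = a i s + if i = j then 1 else 0 := by
    rintro i j ⟨n, σ⟩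
    rw [hs]
    exact ha i j n σ
  have halt : ∀ n (f f' : C n → ZMod 2) (σ σ' : C (n + 1)),
      (∀ i, f (face n i σ) = f' (face n i σ')) →
        altd (ZMod 2) face n f σ = altd (ZMod 2) face n f' σ' := by
    intro n f f' σ σ' h
    rw [altd_apply, altd_apply]
    exact Finset.sum_congr rfl fun i _ => by rw [h]
  have key := half_end (ι := Σ n, C n) (k := ZMod 2) hr (dS face (ZMod 2)) x b (zS C (ZMod 2))
    (dS_dS face hface)
    (by
      intro i f
      funext ⟨n, σ⟩
      rw [hx]
      cases n with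
      | zero => rw [hs, dS_zero, dS_zero, dS_zero, sub_zero]
      | succ n =>
        rw [hs, dS_succ, dS_succ, dS_succ]
        have e1 : (fun τ : C n => x i f ⟨n, τ⟩) = (fun τ => f ⟨n, g i • τ⟩) - fun τ => f ⟨n, τ⟩ := by
          funext τ
          rw [hx, hs]
          rfl
        rw [e1, map_sub, Pi.sub_apply]
        congr 1
        refine halt n _ _ _ _ fun j => ?_
        rw [hact])
    (by
      intro i j f
      funext s
      rw [hx, hx, hx, hx, hx, hx, smul_comm (g i) (g j)]
      ring)
    (by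
      intro i f
      funext s
      rw [hx, hx, hx, hg2']
      have := two (f s)
      have := two (f (g i • s))
      rw [Pi.zero_apply]
      linear_combination two (f s) - two (f (g i • s)))
    (by
      intro i f
      funext s
      rw [Pi.add_apply, hx, hbb, hbb, hbb, hx, ha', if_pos rfl, hg2']
      by_cases h : a i s = -1
      · rw [if_pos h, if_pos h, if_neg (by rw [h]; decide)]
        linear_combination -two (f (g i • s))
      · have h1 : a i s + 1 = -1 := by
          have : ∀ c : ZMod 2, c ≠ -1 → c + 1 = -1 := by decide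
          exact this _ h
        rw [if_neg h, if_neg h, if_pos h1]
        ring)
    (by
      intro i j hij f
      funext s
      rw [hx, hbb, hbb, hbb, hx, ha', if_neg (Ne.symm hij), add_zero, smul_comm (g i) (g j)]
      split_ifs
      · rfl
      · rw [sub_zero])
    (by
      intro i
      set e : Module.End (ZMod 2) ((Σ n, C n) → ZMod 2) :=
        dS face (ZMod 2) ∘ₗ b i + b i ∘ₗ dS face (ZMod 2) with he
      have e0 : ∀ f (σ : C 0), e f ⟨0, σ⟩ = 0 := by
        intro f σ
        change dS face (ZMod 2) (b i f) ⟨0, σ⟩ + b i (dS face (ZMod 2) f) ⟨0, σ⟩ = 0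
        rw [dS_zero, hbb, hs, dS_zero, ite_self, add_zero]
      have e1 : ∀ f n (σ : C (n + 1)), (∀ τ : C n, f ⟨n, τ⟩ = 0) → e f ⟨n + 1, σ⟩ = 0 := by
        intro f n σ h
        change dS face (ZMod 2) (b i f) ⟨n + 1, σ⟩ + b i (dS face (ZMod 2) f) ⟨n + 1, σ⟩ = 0
        have h1 : (fun τ : C n => f ⟨n, τ⟩) = 0 := funext h
        have h2 : (fun τ : C n => b i f ⟨n, τ⟩) = 0 := by
          funext τ
          rw [hbb, hs, h, ite_self]
          rfl
        rw [dS_succ, hbb, hs, dS_succ, h2, h1, map_zero, Pi.zero_apply, Pi.zero_apply, ite_self,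
          add_zero]
      have e2 : ∀ m : ℕ, ∀ f, ∀ n, n < m → ∀ σ : C n, (e ^ m) f ⟨n, σ⟩ = 0 := by
        intro m
        induction m with
        | zero => intro f n hn; omega
        | succ m ih =>
          intro f n hn σ
          rw [pow_succ']
          change e ((e ^ m) f) ⟨n, σ⟩ = 0
          cases n with
          | zero => exact e0 _ σ
          | succ n => exact e1 _ n σ fun τ => ih f n (by omega) τ
      refine ⟨N, LinearMap.ext fun f => funext fun ⟨n, σ⟩ => ?_⟩
      have hn : n < N := by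
        by_contra h
        exact (hN n (not_lt.1 h)).false σ
      exact e2 N f n hn σ)
    (dS_z face)
    (by
      intro i
      funext ⟨n, σ⟩
      rw [hx, hs]
      cases n with
      | zero => exact sub_self _
      | succ n => exact sub_self _)
    (by
      intro f h
      have := congrFun h ⟨0, v⟩
      rw [dS_zero] at this
      exact zero_ne_one this)
  obtain ⟨h1, h2⟩ := range_dS face (k := ZMod 2) N hN
  rw [← Nat.card_eq_fintype_card, h1] at key
  have h3 := sum_finrank_coh (k := ZMod 2) (C := fun n => C n → ZMod 2)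
    (fun n => altd (ZMod 2) face n) (fun n x => altd_altd face hface n x) N
  have h4 : ∑ n ∈ range N, rkb (k := ZMod 2) (C := fun n => C n → ZMod 2)
      (fun n => altd (ZMod 2) face n) n ≤
      ∑ n ∈ range N, finrank (ZMod 2) (LinearMap.range (altd (ZMod 2) face n)) := by
    have h5 : ∀ N, ∑ n ∈ range N, finrank (ZMod 2) (LinearMap.range (altd (ZMod 2) face n)) =
        ∑ n ∈ range N, rkb (k := ZMod 2) (C := fun n => C n → ZMod 2)
      (fun n => altd (ZMod 2) face n) n + rkb (k := ZMod 2) (C := fun n => C n → ZMod 2)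
      (fun n => altd (ZMod 2) face n) N := by
      intro N
      induction N with
      | zero => rw [Finset.sum_range_zero, Finset.sum_range_zero, rkb_zero, add_zero]
      | succ N ih => rw [Finset.sum_range_succ, ih, ← Finset.sum_range_succ, rkb_succ]
    rw [h5]
    omega
  have h6 : rkb (k := ZMod 2) (C := fun n => C n → ZMod 2)
      (fun n => altd (ZMod 2) face n) N = 0 := by
    have := hN N le_rfl
    exact rkb_top _ Module.finrank_zero_of_subsingleton
  omega

end Pool.Agent.H54.Hb
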