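import Pool.Agent.H54.Hb.Semi
import Pool.Graph.R_seed8.Helper381.Smith
import Pool.Graph.R_pool_sql_team_seeded_b677cdb8.E8helper2.ZB.Pos2

/-!
# Isotropy groups of elementary abelian 2-groups on semisimplicial sets
-/

set_option autoImplicit false

open Finset Module

namespace Pool.Agent.H54.Hb

open Pool.Agent.Helper381 Pool.Agent.E8helper2.ZB

section

variable {C : ℕ → Type} (face : ∀ n, Fin (n + 2) → C (n + 1) → C n) {G : Type} [CommGroup G]
  [∀ n, MulAction G (C n)]

/-- the simplices fixed by all elements of `S` -/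
def FC (C : ℕ → Type) {G : Type} [CommGroup G] [∀ n, MulAction G (C n)] (S : Set G) (n : ℕ) :
    Type := {σ : C n // ∀ g ∈ S, g • σ = σ}

/-- faces -/
def ffc (hact : ∀ n i (g : G) (σ : C (n + 1)), face n i (g • σ) = g • face n i σ) (S : Set G)
    (n : ℕ) (i : Fin (n + 2)) (σ : FC C S (n + 1)) : FC C S n :=
  ⟨face n i σ.1, fun g hg => by rw [← hact, σ.2 g hg]⟩

instance (S : Set G) (n : ℕ) : MulAction G (FC C S n) where
  smul g σ := ⟨g • σ.1, fun h hh => by rw [smul_comm, σ.2 h hh]⟩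
  one_smul σ := Subtype.ext (one_smul G σ.1)
  mul_smul g h σ := Subtype.ext (mul_smul g h σ.1)

theorem smul_FC (S : Set G) (n : ℕ) (g : G) (σ : FC C S n) : (g • σ).1 = g • σ.1 := rfl

instance [∀ n, Finite (C n)] (S : Set G) (n : ℕ) : Finite (FC C S n) :=
  inferInstanceAs (Finite {σ : C n // ∀ g ∈ S, g • σ = σ})

variable (hface : ∀ n (i j : Fin (n + 2)) (σ : C (n + 2)), i ≤ j →
      face n i (face (n + 1) j.succ σ) = face n j (face (n + 1) i.castSucc σ))
  (hact : ∀ n i (g : G) (σ : C (n + 1)), face n i (g • σ) = g • face n i σ)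

include hface in
theorem ffc_ffc (S : Set G) (n : ℕ) (i j : Fin (n + 2)) (σ : FC C S (n + 2)) (h : i ≤ j) :
    ffc face hact S n i (ffc face hact S (n + 1) j.succ σ) =
      ffc face hact S n j (ffc face hact S (n + 1) i.castSucc σ) :=
  Subtype.ext (hface n i j σ.1 h)

include hface in
theorem smithFC [∀ n, Finite (C n)] [Finite G] (hG : ∀ g : G, g ^ 2 = 1) (N : ℕ)
    (hN : ∀ q, N ≤ q → IsEmpty (C q)) (S : Set G) :
    ∑ n ∈ range N, finrank (ZMod 2) (Coh (ZMod 2) (fun n => FC C S n → ZMod 2)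
      (fun n => altd (ZMod 2) (ffc face hact S) n) n) ≤
    ∑ n ∈ range N, finrank (ZMod 2) (Coh (ZMod 2) (fun n => C n → ZMod 2)
      (fun n => altd (ZMod 2) face n) n) := by
  classical
  have hSf : S.Finite := Set.toFinite S
  refine Set.Finite.induction_on S hSf ?_ ?_
  · refine smith_ineq (S := C) face (fun n σ => σ) (F := FC C (∅ : Set G)) (ffc face hact ∅)
      (fun n => Subtype.val) hface (fun n i j σ h => ffc_ffc face hface hact ∅ n i j σ h)
      (fun _ _ => rfl) (fun _ _ _ => rfl) (fun _ => Subtype.val_injective) (fun _ _ _ => rfl) ?_ N hN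
    intro n σ
    refine ⟨fun _ => ⟨⟨σ, fun g hg => absurd hg (Set.notMem_empty g)⟩, rfl⟩, fun _ => rfl⟩
  · intro g S _ _ ih
    refine le_trans ?_ ih
    refine smith_ineq (S := FC C S) (ffc face hact S) (fun n σ => g • σ)
      (F := FC C (insert g S)) (ffc face hact (insert g S))
      (fun n σ => ⟨σ.1, fun h hh => σ.2 h (Set.mem_insert_of_mem g hh)⟩)
      (fun n i j σ h => ffc_ffc face hface hact S n i j σ h)
      (fun n i j σ h => ffc_ffc face hface hact _ n i j σ h) ?_ ?_ ?_ (fun _ _ _ => rfl) ?_ N ?_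
    · intro n σ
      rw [← mul_smul, ← pow_two, hG, one_smul]
    · intro n i σ
      exact Subtype.ext (hact n i g σ.1).symm
    · intro n σ τ h
      have h' := congrArg Subtype.val h
      exact Subtype.ext h'
    · intro n σ
      constructor
      · intro h
        refine ⟨⟨σ.1, fun u hu => ?_⟩, rfl⟩
        rcases hu with rfl | hu
        · exact congrArg Subtype.val h
        · exact σ.2 u hu
      · rintro ⟨τ, rfl⟩
        exact Subtype.ext (τ.2 g (Set.mem_insert g S))
    · intro n hn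
      have := hN n hn
      exact ⟨fun σ => this.false σ.1⟩

include hface hact in
/-- **a large isotropy group** -/
theorem semiH [∀ n, Finite (C n)] [Finite G] (hG : ∀ g : G, g ^ 2 = 1) (v : C 0) (N : ℕ)
    (hN : ∀ q, N ≤ q → IsEmpty (C q)) :
    ∃ q, ∃ σ : C q, Nat.card G ∣ Nat.card (MulAction.stabilizer G σ) *
      2 ^ ((∑ n ∈ Finset.range N, finrank (ZMod 2)
          (Coh (ZMod 2) (fun n => C n → ZMod 2) (fun n => altd (ZMod 2) face n) n)) / 2) := by
  classical
  have : Fact (Nat.Prime 2) := ⟨Nat.prime_two⟩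
  have hfS : Finite (Σ n, C n) := by
    let f : (Σ n, C n) → Σ n : Fin N, C n := fun s => ⟨⟨s.1, by
          by_contra h
          exact (hN s.1 (not_lt.1 h)).false s.2⟩, s.2⟩
    refine Finite.of_injective f ?_
    rintro ⟨n, σ⟩ ⟨m, τ⟩ h
    have h1 : n = m := congrArg (fun s : Σ n : Fin N, C n => (s.1 : ℕ)) h
    subst h1
    have h2 : σ = τ := eq_of_heq (Sigma.mk.inj h).2
    rw [h2]
  have hne : Nonempty (Σ n, C n) := ⟨⟨0, v⟩⟩
  obtain ⟨⟨q, σ⟩, hmax⟩ := Finite.exists_max
    (fun s : Σ n, C n => Nat.card (MulAction.stabilizer G s.2))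
  refine ⟨q, σ, ?_⟩
  set H := MulAction.stabilizer G σ with hH
  have hGH : ∀ x : G ⧸ H, x ^ 2 = 1 := by
    intro x
    refine QuotientGroup.induction_on x fun x => ?_
    rw [← QuotientGroup.mk_pow, hG]
    rfl
  obtain ⟨r, ⟨e⟩⟩ := exists_equiv (p := 2) (G ⧸ H) hGH
  let φ : G →* GG 2 r := e.symm.toMonoidHom.comp (QuotientGroup.mk' H)
  have hφ : Function.Surjective φ := e.symm.surjective.comp (QuotientGroup.mk'_surjective H)
  have hker : ∀ b, φ b = 1 ↔ b ∈ H := by
    intro b
    change e.symm (QuotientGroup.mk b) = 1 ↔ _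
    rw [MulEquiv.map_eq_one_iff, QuotientGroup.eq_one_iff]
  have hcard : Nat.card G = Nat.card H * 2 ^ r := by
    rw [Subgroup.card_eq_card_quotient_mul_card_subgroup H, mul_comm, ← Nat.card_congr e.toEquiv]
    congr 1
    rw [Nat.card_congr Multiplicative.toAdd, Nat.card_fun, Nat.card_zmod, Nat.card_fin]
  rw [hcard]
  refine mul_dvd_mul_left _ (pow_dvd_pow 2 ?_)
  -- the action on the fixed simplices is free
  have hfree : ∀ n (τ : FC C (H : Set G) n) (b : G), b • τ = τ → φ b = 1 := by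
    intro n τ b hb
    rw [hker]
    have h1 : H ≤ MulAction.stabilizer G τ.1 := fun g hg => τ.2 g hg
    have h2 := hmax ⟨n, τ.1⟩
    have h3 : H = MulAction.stabilizer G τ.1 := Subgroup.eq_of_le_of_card_ge h1 h2
    rw [h3]
    exact congrArg Subtype.val hb
  obtain ⟨a, ha⟩ := Zim.exists_equiv (Y := Σ n, FC C (H : Set G) n) φ Set.univ
    (fun _ _ _ => Set.mem_univ _) (by
      rintro ⟨n, τ⟩ _ b hb
      exact hfree n τ b (eq_of_heq (Sigma.mk.inj hb).2))
  choose g hg using fun i : Fin r => hφ (Multiplicative.ofAdd (Pi.single i (1 : ZMod 2)))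
  obtain ⟨x0, hx0⟩ : ∃ x0 : C 0, ∀ h ∈ H, h • x0 = x0 := by
    -- a vertex of `σ`
    have : ∀ q (σ : C q), ∃ x0 : C 0, ∀ h : G, h • σ = σ → h • x0 = x0 := by
      intro q
      induction q with
      | zero => exact fun σ => ⟨σ, fun _ h => h⟩
      | succ q ih =>
        intro σ
        obtain ⟨x0, hx0⟩ := ih (face q 0 σ)
        refine ⟨x0, fun h hh => hx0 h ?_⟩
        rw [← hact, hh]
    obtain ⟨x0, hx0⟩ := this q σ
    exact ⟨x0, fun h hh => hx0 h hh⟩
  have h1 := semi_free (C := FC C (H : Set G)) (ffc face hact H)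
    (fun n i j σ h => ffc_ffc face hface hact H n i j σ h) ⟨x0, hx0⟩ N (fun n hn => by
      have := hN n hn
      exact ⟨fun σ => this.false σ.1⟩) (G := G)
    (fun n i g σ => Subtype.ext (hact n i g σ.1)) g
    (fun i s => (a s).toAdd i)
    (fun i n τ => by
      rw [← mul_smul, ← pow_two, hG, one_smul])
    (fun i j n τ => by
      have h2 : a (g j • (⟨n, τ⟩ : Σ n, FC C (H : Set G) n)) = φ (g j) * a ⟨n, τ⟩ :=
        ha _ (Set.mem_univ _) _
      have h3 : a (⟨n, g j • τ⟩ : Σ n, FC C (H : Set G) n) = φ (g j) * a ⟨n, τ⟩ := h2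
      rw [h3, hg]
      change (Pi.single j (1 : ZMod 2) : Fin r → ZMod 2) i + (a ⟨n, τ⟩).toAdd i = _
      rw [add_comm, Pi.single_apply])
  have h2 := smithFC face hface hact hG N hN (H : Set G)
  omega

end

end Pool.Agent.H54.Hb
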