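import Mathlib

/-!
# A determinant over power series

If `U t = (t_i ^ N)_i`, `t = (t_i)_i` the variables, then `det U ≠ 0`.
-/

set_option autoImplicit false

open Finset

namespace Pool.Agent.H54.Hb

variable {k : Type*} [Field k] {r : ℕ}

/-- the power series all of whose monomials are divisible by `t_a ^ N` for some `a ∈ S` -/
def J (k : Type*) [Field k] {r : ℕ} (N : ℕ) (S : Finset (Fin r)) :
    Ideal (MvPowerSeries (Fin r) k) where
  carrier := {f | ∀ α : Fin r →₀ ℕ, (∀ a ∈ S, α a < N) → MvPowerSeries.coeff α f = 0}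
  zero_mem' := fun _ _ => rfl
  add_mem' := by
    intro f g hf hg α hα
    rw [map_add, hf α hα, hg α hα, add_zero]
  smul_mem' := by
    intro c f hf α hα
    rw [smul_eq_mul, MvPowerSeries.coeff_mul]
    refine Finset.sum_eq_zero fun x hx => ?_
    rw [hf x.2, mul_zero]
    intro a ha
    have h1 := Finset.HasAntidiagonal.mem_antidiagonal.1 hx
    have h2 : x.2 a ≤ α a := by
      rw [← h1, Finsupp.add_apply]
      exact Nat.le_add_left _ _
    exact h2.trans_lt (hα a ha)

theorem mem_J {N : ℕ} {S : Finset (Fin r)} {f : MvPowerSeries (Fin r) k} :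
    f ∈ J k N S ↔ ∀ α : Fin r →₀ ℕ, (∀ a ∈ S, α a < N) → MvPowerSeries.coeff α f = 0 := Iff.rfl

theorem J_mono {N : ℕ} {S T : Finset (Fin r)} (h : S ⊆ T) : J k N S ≤ J k N T :=
  fun _ hf α hα => hf α fun a ha => hα a (h ha)

theorem pow_mem_J {N : ℕ} {S : Finset (Fin r)} {i : Fin r} (hi : i ∈ S) :
    (MvPowerSeries.X i : MvPowerSeries (Fin r) k) ^ N ∈ J k N S := by
  classical
  intro α hα
  rw [MvPowerSeries.coeff_X_pow, if_neg]
  rintro rfl
  have := hα i hi
  rw [Finsupp.single_eq_same] at this
  exact lt_irrefl _ this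

theorem nzd_J {N : ℕ} {S : Finset (Fin r)} {i : Fin r} (hi : i ∉ S)
    {f : MvPowerSeries (Fin r) k} (h : f * MvPowerSeries.X i ∈ J k N S) : f ∈ J k N S := by
  intro α hα
  have h1 := h (α + Finsupp.single i 1) (fun a ha => by
    rw [Finsupp.add_apply, Finsupp.single_eq_of_ne (by rintro rfl; exact hi ha), add_zero]
    exact hα a ha)
  rwa [MvPowerSeries.X_def, MvPowerSeries.coeff_add_mul_monomial, mul_one] at h1

theorem prod_notMem_J {N : ℕ} (hN : 0 < N) :
    ∏ i : Fin r, (MvPowerSeries.X i : MvPowerSeries (Fin r) k) ^ (N - 1) ∉ J k N univ := by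
  classical
  intro h
  have h1 : ∏ i : Fin r, (MvPowerSeries.X i : MvPowerSeries (Fin r) k) ^ (N - 1) =
      MvPowerSeries.monomial (∑ i : Fin r, Finsupp.single i (N - 1)) (1 : k) := by
    rw [Finset.prod_congr rfl fun i _ => MvPowerSeries.X_pow_eq i (N - 1),
      MvPowerSeries.prod_monomial]
    simp
  have h2 := h (∑ i : Fin r, Finsupp.single i (N - 1)) (fun a _ => by
    rw [Finsupp.finsetSum_apply, Finset.sum_eq_single a]
    · rw [Finsupp.single_eq_same]
      omega
    · intro b _ hb
      exact Finsupp.single_eq_of_ne (Ne.symm hb)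
    · intro h; exact absurd (mem_univ a) h)
  rw [h1, MvPowerSeries.coeff_monomial_same] at h2
  exact one_ne_zero h2

/-- one step: changing a row changes the determinant by an element of the ideal -/
theorem step {N : ℕ} (V : Matrix (Fin r) (Fin r) (MvPowerSeries (Fin r) k)) (m : Fin r)
    (hV : ∀ i, V.mulVec (fun j => MvPowerSeries.X j) i = MvPowerSeries.X i ^ N)
    (w : Fin r → MvPowerSeries (Fin r) k)
    (hw : ∑ j, w j * MvPowerSeries.X j = (MvPowerSeries.X m : MvPowerSeries (Fin r) k) ^ N) :
    V.det - (V.updateRow m w).det ∈ J k N univ := by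
  set M := V.updateRow m (V m - w) with hM
  have h1 : V.det = M.det + (V.updateRow m w).det := by
    rw [hM, ← Matrix.det_updateRow_add, sub_add_cancel, Matrix.updateRow_eq_self]
  rw [h1, add_sub_cancel_right]
  have h2 : ∀ i, M.mulVec (fun j => MvPowerSeries.X j) i =
      if i = m then 0 else (MvPowerSeries.X i : MvPowerSeries (Fin r) k) ^ N := by
    intro i
    by_cases hi : i = m
    · subst hi
      rw [if_pos rfl]
      have h3 := hV i
      rw [Matrix.mulVec, dotProduct] at h3 ⊢
      rw [hM, Matrix.updateRow_self]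
      simp only [Pi.sub_apply, sub_mul, Finset.sum_sub_distrib]
      rw [hw, h3, sub_self]
    · rw [if_neg hi, ← hV i, Matrix.mulVec, Matrix.mulVec, hM, Matrix.updateRow_ne hi]
  have h3 : M.det * MvPowerSeries.X m ∈ J k N (univ.erase m) := by
    have h4 : (M.adjugate.mulVec (M.mulVec (fun j => MvPowerSeries.X j))) m =
        M.det * MvPowerSeries.X m := by
      rw [Matrix.mulVec_mulVec, Matrix.adjugate_mul, Matrix.smul_mulVec, Matrix.one_mulVec]
      rfl
    rw [← h4, Matrix.mulVec, dotProduct]
    refine Ideal.sum_mem _ fun i _ => ?_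
    rw [h2]
    split_ifs with hi
    · rw [mul_zero]; exact Ideal.zero_mem _
    · exact Ideal.mul_mem_left _ _ (pow_mem_J (Finset.mem_erase.2 ⟨hi, mem_univ i⟩))
  exact J_mono (Finset.erase_subset _ _) (nzd_J (Finset.notMem_erase m univ) h3)

theorem det_ne {N : ℕ} (hN : 0 < N) (U : Matrix (Fin r) (Fin r) (MvPowerSeries (Fin r) k))
    (hU : ∀ i, U.mulVec (fun j => MvPowerSeries.X j) i = MvPowerSeries.X i ^ N) : U.det ≠ 0 := by
  classical
  let w : Fin r → Fin r → MvPowerSeries (Fin r) k := fun i => Pi.single i (MvPowerSeries.X i ^ (N - 1))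
  have hw : ∀ i, ∑ j, w i j * MvPowerSeries.X j = (MvPowerSeries.X i : MvPowerSeries (Fin r) k) ^ N
      := by
    intro i
    rw [Finset.sum_eq_single i]
    · change (Pi.single i (MvPowerSeries.X i ^ (N - 1)) : Fin r → MvPowerSeries (Fin r) k) i * _ = _
      rw [Pi.single_eq_same, ← pow_succ, Nat.sub_add_cancel hN]
    · intro j _ hj
      change (Pi.single i (MvPowerSeries.X i ^ (N - 1)) : Fin r → MvPowerSeries (Fin r) k) j * _ = _
      rw [Pi.single_eq_of_ne hj, zero_mul]
    · intro h; exact absurd (mem_univ i) h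
  -- replace the rows in `S`
  let V : Finset (Fin r) → Matrix (Fin r) (Fin r) (MvPowerSeries (Fin r) k) :=
    fun S i => if i ∈ S then w i else U i
  have hV : ∀ S i, (V S).mulVec (fun j => MvPowerSeries.X j) i = MvPowerSeries.X i ^ N := by
    intro S i
    by_cases hi : i ∈ S
    · rw [Matrix.mulVec, show V S i = w i from if_pos hi]
      exact hw i
    · rw [Matrix.mulVec, show V S i = U i from if_neg hi]
      exact hU i
  have key : ∀ S : Finset (Fin r), U.det - (V S).det ∈ J k N univ := by
    intro S
    induction S using Finset.induction_on with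
    | empty =>
      have : V ∅ = U := by
        funext i
        exact if_neg (Finset.notMem_empty i)
      rw [this, sub_self]
      exact Ideal.zero_mem _
    | insert m S hm ih =>
      have h1 : V (insert m S) = (V S).updateRow m (w m) := by
        funext i
        by_cases hi : i = m
        · subst hi
          rw [Matrix.updateRow_self]
          exact if_pos (Finset.mem_insert_self _ _)
        · rw [Matrix.updateRow_ne hi]
          change (if i ∈ insert m S then w i else U i) = if i ∈ S then w i else U i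
          simp [Finset.mem_insert, hi]
      rw [h1]
      have h2 := step (V S) m (hV S) (w m) (hw m)
      have := Ideal.add_mem _ ih h2
      rwa [sub_add_sub_cancel] at this
  have h1 := key univ
  have h2 : V univ = Matrix.diagonal fun i => MvPowerSeries.X i ^ (N - 1) := by
    funext i j
    change (if i ∈ univ then w i else U i) j = _
    rw [if_pos (mem_univ i)]
    by_cases hij : i = j
    · subst hij
      rw [Matrix.diagonal_apply_eq]
      exact Pi.single_eq_same _ _
    · rw [Matrix.diagonal_apply_ne _ hij]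
      exact Pi.single_eq_of_ne (Ne.symm hij) _
  rw [h2, Matrix.det_diagonal] at h1
  intro h0
  rw [h0, zero_sub] at h1
  exact prod_notMem_J hN (neg_mem_iff.1 h1)

end Pool.Agent.H54.Hb
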