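import Pool.Agent.H54.Hb.Det
import Pool.Agent.H54.Zim.Op

/-!
# Free actions of elementary abelian 2-groups: the total Betti number is at least twice the rank
-/

set_option autoImplicit false

open Finset Module Matrix

namespace Pool.Agent.H54.Hb

section lin

variable {k : Type*} [Field k] {ι : Type*} [Fintype ι] [DecidableEq ι]

/-- vectors and functionals adapted to the matrix `d` and the vector `z` outside its range -/
theorem exists_adapted (d : Matrix ι ι k) (z : ι → k) (hz : ∀ f, d *ᵥ f ≠ z) :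
    ∃ (B : Matrix ι (Fin d.rank) k) (Mu : Matrix (Fin d.rank) ι k) (la : ι → k),
      Mu * d * B = 1 ∧ Mu *ᵥ z = 0 ∧ la ᵥ* d = 0 ∧ la ⬝ᵥ z = 1 := by
  classical
  let β : Basis (Fin d.rank) k (LinearMap.range d.mulVecLin) := finBasisOfFinrankEq _ _ rfl
  have hβ : ∀ l, ∃ f, d *ᵥ f = (β l : ι → k) := fun l => by
    obtain ⟨f, hf⟩ := (β l).2
    exact ⟨f, hf⟩
  choose bb hbb using hβ
  let v : Option (Fin d.rank) → (ι → k) := fun o => o.elim z (fun l => d *ᵥ bb l)
  have hspan : Submodule.span k (Set.range fun l => d *ᵥ bb l) = LinearMap.range d.mulVecLin := by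
    have h1 : (fun l => d *ᵥ bb l) = (LinearMap.range d.mulVecLin).subtype ∘ β := by
      funext l
      exact hbb l
    rw [h1, Set.range_comp, Submodule.span_image, β.span_eq, Submodule.map_top,
      Submodule.range_subtype]
  have hli : LinearIndependent k v := by
    rw [linearIndependent_option]
    constructor
    · have h1 : v ∘ some = (LinearMap.range d.mulVecLin).subtype ∘ β := by
        funext l
        exact hbb l
      rw [h1]
      exact β.linearIndependent.map' _ (Submodule.ker_subtype _)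
    · intro h
      have h1 : z ∈ LinearMap.range d.mulVecLin := by
        rw [← hspan]
        exact h
      obtain ⟨f, hf⟩ := h1
      exact hz f hf
  obtain ⟨g, hg⟩ := LinearMap.exists_leftInverse_of_injective (Fintype.linearCombination k v)
    (LinearMap.ker_eq_bot.2 (linearIndependent_iff_injective_fintypeLinearCombination.1 hli))
  have hgv : ∀ o, g (v o) = Pi.single o 1 := by
    intro o
    have h1 := LinearMap.congr_fun hg (Pi.single o 1)
    rw [LinearMap.comp_apply, Fintype.linearCombination_apply_single, one_smul] at h1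
    exact h1
  have hd0 : ∀ f, g (d *ᵥ f) none = 0 := by
    intro f
    have h1 : d *ᵥ f ∈ Submodule.span k (Set.range fun l => d *ᵥ bb l) := by
      rw [hspan]
      exact ⟨f, rfl⟩
    refine Submodule.span_induction (p := fun x _ => g x none = 0) ?_ ?_ ?_ ?_ h1
    · rintro _ ⟨l, rfl⟩
      have := hgv (some l)
      change g (d *ᵥ bb l) none = 0
      rw [show d *ᵥ bb l = v (some l) from rfl, this, Pi.single_eq_of_ne (by simp)]
    · rw [map_zero]; rfl
    · intro x y _ _ hx hy
      rw [map_add, Pi.add_apply, hx, hy, add_zero]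
    · intro c x _ hx
      rw [map_smul, Pi.smul_apply, hx, smul_zero]
  have hga : ∀ (o : Option (Fin d.rank)) (f : ι → k), ∑ c, g (Pi.single c 1) o * f c = g f o := by
    intro o f
    have h1 := LinearMap.pi_apply_eq_sum_univ g f
    rw [h1, Finset.sum_apply]
    refine Finset.sum_congr rfl fun c _ => ?_
    rw [Pi.smul_apply, smul_eq_mul, mul_comm]
    have h2 : (Pi.single c 1 : ι → k) = fun j => if c = j then 1 else 0 := by
      funext j
      by_cases hj : j = c
      · subst hj; simp
      · rw [Pi.single_eq_of_ne hj, if_neg (fun h => hj h.symm)]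
    rw [h2]
  refine ⟨Matrix.of fun c l => bb l c, Matrix.of fun l c => g (Pi.single c 1) (some l),
    fun c => g (Pi.single c 1) none, ?_, ?_, ?_, ?_⟩
  · rw [Matrix.mul_assoc]
    ext l m
    rw [Matrix.mul_apply]
    have h1 : ∑ c, (Matrix.of fun l c => g (Pi.single c 1) (some l) : Matrix (Fin d.rank) ι k) l c *
        (d * (Matrix.of fun c l => bb l c : Matrix ι (Fin d.rank) k)) c m =
        ∑ c, g (Pi.single c 1) (some l) * (d *ᵥ bb m) c := rfl
    rw [h1, hga, show d *ᵥ bb m = v (some m) from rfl, hgv, Matrix.one_apply]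
    by_cases h : l = m
    · subst h; simp
    · rw [if_neg h, Pi.single_eq_of_ne (by simpa using h)]
  · funext l
    change ∑ c, g (Pi.single c 1) (some l) * z c = 0
    rw [hga, show z = v none from rfl, hgv, Pi.single_eq_of_ne (by simp)]
  · funext c
    change ∑ a, g (Pi.single a 1) none * d a c = 0
    rw [hga none (fun a => d a c)]
    have h1 : (fun a => d a c) = d *ᵥ (Pi.single c 1) := by
      funext a
      rw [Matrix.mulVec_single_one]
      rfl
    rw [h1]
    exact hd0 _
  · change ∑ c, g (Pi.single c 1) none * z c = 1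
    rw [hga, show g z = g (v none) from rfl, hgv, Pi.single_eq_same]

end lin

section main

variable {k : Type*} [Field k] {ι : Type*} [Fintype ι] [DecidableEq ι] {r : ℕ}

/-- extension of matrices to power series -/
noncomputable def ph (k : Type*) [Field k] (ι : Type*) [Fintype ι] [DecidableEq ι] (r : ℕ) :
    Matrix ι ι k →+* Matrix ι ι (MvPowerSeries (Fin r) k) :=
  (MvPowerSeries.C : k →+* MvPowerSeries (Fin r) k).mapMatrix

/-- the differential of the Borel construction -/
noncomputable def DD (d : Matrix ι ι k) (x : Fin r → Matrix ι ι k) :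
    Matrix ι ι (MvPowerSeries (Fin r) k) :=
  ph k ι r d + ∑ i, (MvPowerSeries.X i : MvPowerSeries (Fin r) k) • ph k ι r (x i)

variable [CharP k 2]

theorem two_zero [Nonempty ι] (M : Matrix ι ι (MvPowerSeries (Fin r) k)) : M + M = 0 := by
  have h1 : CharP (MvPowerSeries (Fin r) k) 2 :=
    charP_of_injective_algebraMap (algebraMap k (MvPowerSeries (Fin r) k)).injective 2
  have h2 : CharP (Matrix ι ι (MvPowerSeries (Fin r) k)) 2 := Matrix.charP 2
  exact CharTwo.add_self_eq_zero M

variable [Nonempty ι] {d : Matrix ι ι k} {x b : Fin r → Matrix ι ι k}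

theorem DD_DD (hd : d * d = 0) (hxd : ∀ i, x i * d = d * x i)
    (hxx : ∀ i j, x i * x j = x j * x i) (hx2 : ∀ i, x i * x i = 0) :
    DD d x * DD d x = 0 := by
  unfold DD
  rw [mul_add, add_mul, add_mul, ← map_mul, hd, map_zero, zero_add, Finset.sum_mul, Finset.mul_sum]
  have h1 : ∑ i, (MvPowerSeries.X i : MvPowerSeries (Fin r) k) • ph k ι r (x i) * ph k ι r d =
      ∑ i, ph k ι r d * (MvPowerSeries.X i : MvPowerSeries (Fin r) k) • ph k ι r (x i) := by
    refine Finset.sum_congr rfl fun i _ => ?_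
    rw [smul_mul_assoc, mul_smul_comm, ← map_mul, ← map_mul, hxd]
  rw [h1, ← add_assoc, two_zero, zero_add, Finset.sum_mul]
  simp only [Finset.mul_sum]
  refine Zim.sum_anti _ _ (fun i => ?_) (fun i j hij => ?_)
  · rw [smul_mul_smul_comm, ← map_mul, hx2, map_zero, smul_zero]
  · rw [smul_mul_smul_comm, smul_mul_smul_comm, ← map_mul, ← map_mul, hxx j i,
      mul_comm (MvPowerSeries.X j), two_zero]

theorem EE (i : Fin r) (hb : x i * b i + b i * x i = 1)
    (hxj : ∀ j, j ≠ i → x j * b i = b i * x j) :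
    DD d x * ph k ι r (b i) + ph k ι r (b i) * DD d x =
      (MvPowerSeries.X i : MvPowerSeries (Fin r) k) • 1 + ph k ι r (d * b i + b i * d) := by
  unfold DD
  rw [add_mul, mul_add, Finset.sum_mul, Finset.mul_sum]
  have h1 : ∑ j, (MvPowerSeries.X j : MvPowerSeries (Fin r) k) • ph k ι r (x j) * ph k ι r (b i) +
      ∑ j, ph k ι r (b i) * (MvPowerSeries.X j : MvPowerSeries (Fin r) k) • ph k ι r (x j) =
      (MvPowerSeries.X i : MvPowerSeries (Fin r) k) • 1 := by
    rw [← Finset.sum_add_distrib, Finset.sum_eq_single i]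
    · rw [smul_mul_assoc, mul_smul_comm, ← smul_add, ← map_mul, ← map_mul, ← map_add, hb, map_one]
    · intro j _ hj
      rw [smul_mul_assoc, mul_smul_comm, ← smul_add, ← map_mul, ← map_mul, hxj j hj, two_zero,
        smul_zero]
    · intro h; exact absurd (mem_univ i) h
  rw [← h1, map_add, map_mul, map_mul]
  abel

/-- contracting homotopies -/
theorem exists_homotopy (hd : d * d = 0) (hxd : ∀ i, x i * d = d * x i)
    (hxx : ∀ i j, x i * x j = x j * x i) (hx2 : ∀ i, x i * x i = 0)
    (hb : ∀ i, x i * b i + b i * x i = 1)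
    (hxj : ∀ i j, j ≠ i → x j * b i = b i * x j) (hnil : ∀ i, IsNilpotent (d * b i + b i * d)) :
    ∃ N : ℕ, 0 < N ∧ ∀ i, ∃ H : Matrix ι ι (MvPowerSeries (Fin r) k),
      DD d x * H + H * DD d x = (MvPowerSeries.X i : MvPowerSeries (Fin r) k) ^ N • 1 := by
  choose m hm using hnil
  set n := ∑ i, m i with hn
  have hm' : ∀ i, (d * b i + b i * d) ^ (2 ^ n) = 0 := by
    intro i
    have h1 : m i ≤ 2 ^ n := (Finset.single_le_sum (fun j _ => Nat.zero_le (m j)) (mem_univ i)).trans
      (Nat.lt_two_pow_self).le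
    exact pow_eq_zero_of_le h1 (hm i)
  refine ⟨2 ^ n, pow_pos two_pos _, fun i => ?_⟩
  set E := DD d x * ph k ι r (b i) + ph k ι r (b i) * DD d x with hE
  have hDE : DD d x * E = E * DD d x := by
    have h1 := DD_DD (r := r) hd hxd hxx hx2
    rw [hE, mul_add, add_mul, ← mul_assoc, h1, zero_mul, zero_add, mul_assoc (ph k ι r (b i)), h1,
      mul_zero, add_zero, mul_assoc]
  have hDEn : ∀ n, DD d x * E ^ n = E ^ n * DD d x := fun n =>
    (Commute.pow_right (show Commute (DD d x) E from hDE) n)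
  have hEN : E ^ (2 ^ n) = (MvPowerSeries.X i : MvPowerSeries (Fin r) k) ^ (2 ^ n) • 1 := by
    have h1 : CharP (MvPowerSeries (Fin r) k) 2 :=
      charP_of_injective_algebraMap (algebraMap k (MvPowerSeries (Fin r) k)).injective 2
    have h2 : CharP (Matrix ι ι (MvPowerSeries (Fin r) k)) 2 := Matrix.charP 2
    have : ExpChar (Matrix ι ι (MvPowerSeries (Fin r) k)) 2 := ExpChar.prime Nat.prime_two
    rw [hE, EE i (hb i) (hxj i), add_pow_expChar_pow_of_commute, ← map_pow, hm', map_zero, add_zero,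
      smul_pow, one_pow]
    exact (Commute.one_left _).smul_left _
  refine ⟨ph k ι r (b i) * E ^ (2 ^ n - 1), ?_⟩
  have h3 : 2 ^ n = (2 ^ n - 1) + 1 := (Nat.sub_add_cancel Nat.one_le_two_pow).symm
  calc DD d x * (ph k ι r (b i) * E ^ (2 ^ n - 1)) + ph k ι r (b i) * E ^ (2 ^ n - 1) * DD d x
      = (DD d x * ph k ι r (b i) + ph k ι r (b i) * DD d x) * E ^ (2 ^ n - 1) := by
        rw [mul_assoc (ph k ι r (b i)), ← hDEn, add_mul, mul_assoc, mul_assoc]
    _ = E ^ (2 ^ n) := by
        rw [← hE, ← pow_succ']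
        congr 1
        exact h3.symm
    _ = _ := hEN

end main

section fin

variable {k : Type*} [Field k] [CharP k 2] {ι : Type*} [Fintype ι] [DecidableEq ι] [Nonempty ι]
  {r : ℕ}

/-- many independent cycles of the Borel construction -/
theorem indep (hr : 0 < r) (d : Matrix ι ι k) (x b : Fin r → Matrix ι ι k) (z : ι → k)
    (hd : d * d = 0) (hxd : ∀ i, x i * d = d * x i)
    (hxx : ∀ i j, x i * x j = x j * x i) (hx2 : ∀ i, x i * x i = 0)
    (hb : ∀ i, x i * b i + b i * x i = 1)
    (hxj : ∀ i j, j ≠ i → x j * b i = b i * x j) (hnil : ∀ i, IsNilpotent (d * b i + b i * d))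
    (hdz : d *ᵥ z = 0) (hxz : ∀ i, x i *ᵥ z = 0) (hz : ∀ f, d *ᵥ f ≠ z) :
    ∃ v : Fin d.rank ⊕ Fin r → (ι → MvPowerSeries (Fin r) k),
      LinearIndependent (MvPowerSeries (Fin r) k) v ∧ ∀ i, DD d x *ᵥ v i = 0 := by
  classical
  obtain ⟨B₀, Mu₀, la₀, h1, h2, h3, h4⟩ := exists_adapted d z hz
  obtain ⟨N, hN, hH⟩ := exists_homotopy (r := r) hd hxd hxx hx2 hb hxj hnil
  choose H hH using hH
  have hDD := DD_DD (r := r) hd hxd hxx hx2
  set D := DD d x with hD
  let C : k →+* MvPowerSeries (Fin r) k := MvPowerSeries.C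
  let B : Matrix ι (Fin d.rank) (MvPowerSeries (Fin r) k) := B₀.map C
  let Mu : Matrix (Fin d.rank) ι (MvPowerSeries (Fin r) k) := Mu₀.map C
  let la : ι → MvPowerSeries (Fin r) k := fun c => C (la₀ c)
  let Z : ι → MvPowerSeries (Fin r) k := fun c => C (z c)
  have hmv : ∀ (M : Matrix ι ι k) (f : ι → k), ph k ι r M *ᵥ (fun c => C (f c)) =
      fun c => C ((M *ᵥ f) c) := by
    intro M f
    funext c
    change ∑ a, C (M c a) * C (f a) = C (∑ a, M c a * f a)
    rw [map_sum]
    exact Finset.sum_congr rfl fun a _ => (map_mul _ _ _).symm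
  have hvm : ∀ (M : Matrix ι ι k) (f : ι → k), (fun c => C (f c)) ᵥ* ph k ι r M =
      fun c => C ((f ᵥ* M) c) := by
    intro M f
    funext c
    change ∑ a, C (f a) * C (M a c) = C (∑ a, f a * M a c)
    rw [map_sum]
    exact Finset.sum_congr rfl fun a _ => (map_mul _ _ _).symm
  have hDZ : D *ᵥ Z = 0 := by
    rw [hD, DD, add_mulVec, Matrix.sum_mulVec]
    have e1 : ph k ι r d *ᵥ Z = 0 := by
      rw [hmv, hdz]
      funext c
      exact map_zero C
    have e2 : ∀ i, ((MvPowerSeries.X i : MvPowerSeries (Fin r) k) • ph k ι r (x i)) *ᵥ Z = 0 := by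
      intro i
      rw [smul_mulVec, hmv, hxz]
      have : (fun c => C ((0 : ι → k) c)) = (0 : ι → MvPowerSeries (Fin r) k) := by
        funext c
        exact map_zero C
      rw [this, smul_zero]
    rw [e1, Finset.sum_eq_zero fun i _ => e2 i, add_zero]
  have hMuZ : Mu *ᵥ Z = 0 := by
    funext c
    change ∑ a, C (Mu₀ c a) * C (z a) = 0
    have := congrFun h2 c
    change ∑ a, Mu₀ c a * z a = 0 at this
    rw [← map_zero C, ← this, map_sum]
    exact Finset.sum_congr rfl fun a _ => (map_mul _ _ _).symm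
  have hlaZ : la ⬝ᵥ Z = 1 := by
    change ∑ a, C (la₀ a) * C (z a) = 1
    change ∑ a, la₀ a * z a = 1 at h4
    rw [← map_one C, ← h4, map_sum]
    exact Finset.sum_congr rfl fun a _ => (map_mul _ _ _).symm
  have hlaD : la ᵥ* D = ∑ i, (MvPowerSeries.X i : MvPowerSeries (Fin r) k) •
      (la ᵥ* ph k ι r (x i)) := by
    rw [hD, DD, vecMul_add, Matrix.vecMul_sum]
    have e1 : la ᵥ* ph k ι r d = 0 := by
      rw [hvm, h3]
      funext c
      exact map_zero C
    rw [e1, zero_add]
    exact Finset.sum_congr rfl fun i _ => vecMul_smul _ _ _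
  -- the invertible matrix
  let G : Matrix (Fin d.rank) (Fin d.rank) (MvPowerSeries (Fin r) k) := Mu * D * B
  have hGu : IsUnit G.det := by
    rw [MvPowerSeries.isUnit_iff_constantCoeff]
    let cc : MvPowerSeries (Fin r) k →+* k := MvPowerSeries.constantCoeff
    have hcc : ∀ a, cc (C a) = a := fun a => MvPowerSeries.constantCoeff_C a
    have e1 : MvPowerSeries.constantCoeff G.det = (G.map cc).det := by
      change cc G.det = _
      rw [RingHom.map_det]
      rfl
    have e2 : G.map cc = Mu₀ * d * B₀ := by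
      have e3 : ∀ (M : Matrix (Fin d.rank) ι k), (M.map C).map cc = M := by
        intro M
        ext i j
        exact hcc _
      have e4 : D.map cc = d := by
        ext i j
        rw [hD, DD, Matrix.map_apply, Matrix.add_apply, map_add, Matrix.sum_apply, map_sum]
        have e5 : ∀ (M : Matrix ι ι k), cc (ph k ι r M i j) = M i j :=
          fun M => hcc _
        rw [e5, Finset.sum_eq_zero, add_zero]
        intro l _
        rw [Matrix.smul_apply, smul_eq_mul, map_mul, show cc (MvPowerSeries.X l) = 0 from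
          MvPowerSeries.constantCoeff_X l, zero_mul]
      have e6 : B.map cc = B₀ := by
        ext i j
        exact hcc _
      change (Mu₀.map C * D * B).map cc = _
      rw [Matrix.map_mul, Matrix.map_mul, e3, e4, e6]
    rw [e1, e2, h1, det_one]
    exact isUnit_one
  have hG1 : G⁻¹ * G = 1 := nonsing_inv_mul _ hGu
  have hG2 : G * G⁻¹ = 1 := mul_nonsing_inv _ hGu
  let P : Matrix ι ι (MvPowerSeries (Fin r) k) := 1 - D * B * G⁻¹ * Mu
  let Rr : Matrix ι ι (MvPowerSeries (Fin r) k) := 1 - B * G⁻¹ * Mu * D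
  have hDR : D * Rr = P * D := by
    change D * (1 - B * G⁻¹ * Mu * D) = (1 - D * B * G⁻¹ * Mu) * D
    rw [mul_sub, sub_mul, mul_one, one_mul]
    simp only [Matrix.mul_assoc]
  have hPDB : P * (D * B) = 0 := by
    change (1 - D * B * G⁻¹ * Mu) * (D * B) = 0
    rw [Matrix.sub_mul, Matrix.one_mul]
    have e1 : D * B * G⁻¹ * Mu * (D * B) = D * B * (G⁻¹ * (Mu * D * B)) := by
      simp only [Matrix.mul_assoc]
    rw [e1, show Mu * D * B = G from rfl, hG1, Matrix.mul_one, sub_self]
  have hPZ : P *ᵥ Z = Z := by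
    change (1 - D * B * G⁻¹ * Mu) *ᵥ Z = Z
    rw [sub_mulVec, one_mulVec, ← mulVec_mulVec, hMuZ, mulVec_zero, sub_zero]
  let Q : Matrix ι ι (MvPowerSeries (Fin r) k) := P - vecMulVec Z (la ᵥ* P)
  have hQZ : Q *ᵥ Z = 0 := by
    change (P - vecMulVec Z (la ᵥ* P)) *ᵥ Z = 0
    rw [sub_mulVec, hPZ, vecMulVec_mulVec, ← dotProduct_mulVec, hPZ, hlaZ]
    funext c
    simp
  have hQDB : Q * (D * B) = 0 := by
    change (P - vecMulVec Z (la ᵥ* P)) * (D * B) = 0
    rw [Matrix.sub_mul, hPDB, vecMulVec_mul, vecMul_vecMul, hPDB, vecMul_zero, zero_sub, neg_eq_zero]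
    ext i j
    simp [vecMulVec_apply]
  have hDP : D * P = D := by
    change D * (1 - D * B * G⁻¹ * Mu) = D
    rw [Matrix.mul_sub, Matrix.mul_one]
    have : D * (D * B * G⁻¹ * Mu) = D * D * (B * G⁻¹ * Mu) := by simp only [Matrix.mul_assoc]
    rw [this, hDD, Matrix.zero_mul, sub_zero]
  have hDQ : D * Q = D := by
    change D * (P - vecMulVec Z (la ᵥ* P)) = D
    rw [Matrix.mul_sub, hDP, mul_vecMulVec, hDZ, zero_vecMulVec, sub_zero]
  -- the functionals
  let θ : Fin r → (ι → MvPowerSeries (Fin r) k) := fun j => la ᵥ* (ph k ι r (x j) * Rr * Q)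
  have hθ : ∑ j, (MvPowerSeries.X j : MvPowerSeries (Fin r) k) • θ j = la ᵥ* (P * D) := by
    have e1 : ∀ j, (MvPowerSeries.X j : MvPowerSeries (Fin r) k) • θ j =
        ((MvPowerSeries.X j : MvPowerSeries (Fin r) k) • (la ᵥ* ph k ι r (x j))) ᵥ* (Rr * Q) := by
      intro j
      change _ • (la ᵥ* (ph k ι r (x j) * Rr * Q)) = _
      rw [smul_vecMul, vecMul_vecMul, Matrix.mul_assoc]
    rw [Finset.sum_congr rfl fun j _ => e1 j, ← Matrix.sum_vecMul, ← hlaD, vecMul_vecMul,
      ← Matrix.mul_assoc, hDR, Matrix.mul_assoc, hDQ]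
  have hθZ : ∀ j, θ j ⬝ᵥ Z = 0 := by
    intro j
    change (la ᵥ* (ph k ι r (x j) * Rr * Q)) ⬝ᵥ Z = 0
    rw [← dotProduct_mulVec, ← mulVec_mulVec, hQZ, mulVec_zero, dotProduct_zero]
  have hθB : ∀ j, θ j ᵥ* (D * B) = 0 := by
    intro j
    change (la ᵥ* (ph k ι r (x j) * Rr * Q)) ᵥ* (D * B) = 0
    rw [vecMul_vecMul, Matrix.mul_assoc, hQDB, Matrix.mul_zero, vecMul_zero]
  let y : Fin r → (ι → MvPowerSeries (Fin r) k) := fun i => H i *ᵥ Z
  have hDy : ∀ i, D *ᵥ y i = (MvPowerSeries.X i : MvPowerSeries (Fin r) k) ^ N • Z := by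
    intro i
    have e1 := congrArg (fun M => M *ᵥ Z) (hH i)
    simp only [add_mulVec, ← mulVec_mulVec, hDZ, mulVec_zero, add_zero, smul_mulVec,
      one_mulVec] at e1
    exact e1
  let U : Matrix (Fin r) (Fin r) (MvPowerSeries (Fin r) k) := Matrix.of fun i j => θ j ⬝ᵥ y i
  have hU : ∀ i, U.mulVec (fun j => MvPowerSeries.X j) i = MvPowerSeries.X i ^ N := by
    intro i
    change ∑ j, (θ j ⬝ᵥ y i) * MvPowerSeries.X j = _
    have e1 : ∀ j, (θ j ⬝ᵥ y i) * MvPowerSeries.X j =
        ((MvPowerSeries.X j : MvPowerSeries (Fin r) k) • θ j) ⬝ᵥ y i := by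
      intro j
      rw [smul_dotProduct, smul_eq_mul, mul_comm]
    rw [Finset.sum_congr rfl fun j _ => e1 j, ← sum_dotProduct, hθ, ← dotProduct_mulVec,
      ← mulVec_mulVec, hDy, mulVec_smul, hPZ, dotProduct_smul, hlaZ, smul_eq_mul, mul_one]
  have hdet := det_ne hN U hU
  let i0 : Fin r := ⟨0, hr⟩
  let w : Fin r → (ι → MvPowerSeries (Fin r) k) := fun i => if i = i0 then Z else
    (MvPowerSeries.X i0 : MvPowerSeries (Fin r) k) ^ N • y i -
      (MvPowerSeries.X i : MvPowerSeries (Fin r) k) ^ N • y i0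
  let v : Fin d.rank ⊕ Fin r → (ι → MvPowerSeries (Fin r) k) := Sum.elim (fun l c => (D * B) c l) w
  refine ⟨v, ?_, ?_⟩
  · rw [Fintype.linearIndependent_iff]
    intro g hg
    rw [Fintype.sum_sum_type] at hg
    set c : Fin d.rank → MvPowerSeries (Fin r) k := fun l => g (Sum.inl l) with hc
    set f : Fin r → MvPowerSeries (Fin r) k := fun i => g (Sum.inr i) with hf
    have e1 : ∑ l, g (Sum.inl l) • v (Sum.inl l) = (D * B) *ᵥ c := by
      funext a
      rw [Finset.sum_apply]
      change _ = ∑ l, (D * B) a l * c l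
      refine Finset.sum_congr rfl fun l _ => ?_
      rw [Pi.smul_apply, smul_eq_mul, mul_comm]
      rfl
    have e2 : (D * B) *ᵥ c + ∑ i, f i • w i = 0 := by
      rw [← e1]
      exact hg
    have e3 : ∀ j, ∑ i, f i * (θ j ⬝ᵥ w i) = 0 := by
      intro j
      have := congrArg (fun u => θ j ⬝ᵥ u) e2
      simp only [dotProduct_add, dotProduct_zero] at this
      rw [dotProduct_mulVec, hθB, zero_dotProduct, zero_add, dotProduct_sum] at this
      rw [← this]
      exact Finset.sum_congr rfl fun i _ => by rw [dotProduct_smul, smul_eq_mul]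
    have e4 : ∀ j i, θ j ⬝ᵥ w i = if i = i0 then 0 else
        (MvPowerSeries.X i0 : MvPowerSeries (Fin r) k) ^ N * U i j -
          (MvPowerSeries.X i : MvPowerSeries (Fin r) k) ^ N * U i0 j := by
      intro j i
      change θ j ⬝ᵥ (if i = i0 then Z else _) = _
      split_ifs
      · exact hθZ j
      · rw [dotProduct_sub, dotProduct_smul, dotProduct_smul]
        rfl
    -- the row vector
    let gg : Fin r → MvPowerSeries (Fin r) k := fun i => if i = i0 then
      -∑ l, (if l = i0 then 0 else f l * MvPowerSeries.X l ^ N) else f i * MvPowerSeries.X i0 ^ N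
    have e5 : gg ᵥ* U = 0 := by
      funext j
      change ∑ i, gg i * U i j = 0
      have e6 : ∀ i, gg i * U i j = (if i = i0 then gg i * U i0 j else 0) +
          (if i = i0 then 0 else f i * MvPowerSeries.X i0 ^ N * U i j) := by
        intro i
        by_cases h : i = i0
        · rw [if_pos h, if_pos h, add_zero, h]
        · rw [if_neg h, if_neg h, zero_add]
          change (if i = i0 then _ else _) * _ = _
          rw [if_neg h]
      rw [Finset.sum_congr rfl fun i _ => e6 i, Finset.sum_add_distrib, Finset.sum_ite_eq',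
        if_pos (mem_univ i0)]
      have e7 : gg i0 = -∑ l, (if l = i0 then 0 else f l * MvPowerSeries.X l ^ N) := if_pos rfl
      rw [e7, neg_mul, Finset.sum_mul, ← Finset.sum_neg_distrib, ← Finset.sum_add_distrib]
      refine Eq.trans (Finset.sum_congr rfl fun i _ => ?_) (e3 j)
      rw [e4]
      split_ifs
      · ring
      · ring
    have e8 := eq_zero_of_vecMul_eq_zero hdet e5
    have hX : (MvPowerSeries.X i0 : MvPowerSeries (Fin r) k) ^ N ≠ 0 := by
      apply pow_ne_zero
      intro h0
      have := congrArg (MvPowerSeries.coeff (Finsupp.single i0 1)) h0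
      rw [MvPowerSeries.coeff_index_single_self_X, MvPowerSeries.coeff_zero] at this
      exact one_ne_zero this
    have e9 : ∀ i, i ≠ i0 → f i = 0 := by
      intro i hi
      have := congrFun e8 i
      change (if i = i0 then _ else f i * MvPowerSeries.X i0 ^ N) = 0 at this
      rw [if_neg hi] at this
      exact (mul_eq_zero.1 this).resolve_right hX
    have e10 : ∑ i, f i • w i = f i0 • Z := by
      rw [Finset.sum_eq_single i0]
      · change f i0 • (if i0 = i0 then Z else _) = _
        rw [if_pos rfl]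
      · intro i _ hi
        rw [e9 i hi, zero_smul]
      · intro h; exact absurd (mem_univ i0) h
    rw [e10] at e2
    have e11 : f i0 = 0 := by
      have := congrArg (fun u => (la ᵥ* P) ⬝ᵥ u) e2
      simp only [dotProduct_add, dotProduct_zero] at this
      rw [dotProduct_mulVec, vecMul_vecMul, hPDB, vecMul_zero, zero_dotProduct, zero_add,
        dotProduct_smul, ← dotProduct_mulVec, hPZ, hlaZ, smul_eq_mul, mul_one] at this
      exact this
    rw [e11, zero_smul, add_zero] at e2
    have e12 : c = 0 := by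
      have e13 : G *ᵥ c = 0 := by
        change (Mu * D * B) *ᵥ c = 0
        rw [Matrix.mul_assoc, ← mulVec_mulVec, e2, mulVec_zero]
      have := congrArg (fun u => G⁻¹ *ᵥ u) e13
      simp only [mulVec_mulVec, hG1, one_mulVec, mulVec_zero] at this
      exact this
    rintro (l | i)
    · exact congrFun e12 l
    · by_cases hi : i = i0
      · rw [hi]; exact e11
      · exact e9 i hi
  · rintro (l | i)
    · have e1 : v (Sum.inl l) = (D * B) *ᵥ Pi.single l 1 := by
        rw [mulVec_single_one]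
        rfl
      rw [e1, mulVec_mulVec, ← Matrix.mul_assoc, hDD, Matrix.zero_mul, zero_mulVec]
    · change D *ᵥ (if i = i0 then Z else _) = 0
      split_ifs
      · exact hDZ
      · rw [mulVec_sub, mulVec_smul, mulVec_smul, hDy, hDy, smul_smul, smul_smul, mul_comm, sub_self]

/-- **the total Betti number of a complex with a free action of `(ℤ/2)^r` is at least `2 r`** -/
theorem half (hr : 0 < r) (d : Matrix ι ι k) (x b : Fin r → Matrix ι ι k) (z : ι → k)
    (hd : d * d = 0) (hxd : ∀ i, x i * d = d * x i)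
    (hxx : ∀ i j, x i * x j = x j * x i) (hx2 : ∀ i, x i * x i = 0)
    (hb : ∀ i, x i * b i + b i * x i = 1)
    (hxj : ∀ i j, j ≠ i → x j * b i = b i * x j) (hnil : ∀ i, IsNilpotent (d * b i + b i * d))
    (hdz : d *ᵥ z = 0) (hxz : ∀ i, x i *ᵥ z = 0) (hz : ∀ f, d *ᵥ f ≠ z) :
    2 * (d.rank + r) ≤ Fintype.card ι := by
  classical
  obtain ⟨v, hv, hDv⟩ := indep hr d x b z hd hxd hxx hx2 hb hxj hnil hdz hxz hz
  obtain ⟨N, hN, hH⟩ := exists_homotopy (r := r) hd hxd hxx hx2 hb hxj hnil
  obtain ⟨H, hH⟩ := hH ⟨0, hr⟩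
  have hdom : IsDomain (MvPowerSeries (Fin r) k) := NoZeroDivisors.to_isDomain _
  let K := FractionRing (MvPowerSeries (Fin r) k)
  let al : MvPowerSeries (Fin r) k →+* K := algebraMap _ K
  let DK : Matrix ι ι K := (DD d x).map al
  let HK : Matrix ι ι K := H.map al
  let vK : Fin d.rank ⊕ Fin r → (ι → K) := fun i c => al (v i c)
  have e1 : LinearIndependent K vK := by
    rw [← LinearIndependent.iff_fractionRing (MvPowerSeries (Fin r) k) K]
    let f : (ι → MvPowerSeries (Fin r) k) →ₗ[MvPowerSeries (Fin r) k] (ι → K) :=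
      { toFun := fun u c => al (u c)
        map_add' := fun a b => funext fun c => map_add _ _ _
        map_smul' := fun a b => funext fun c => by
          rw [Pi.smul_apply, smul_eq_mul, map_mul, Pi.smul_apply, RingHom.id_apply,
            Algebra.smul_def] }
    refine hv.map' f ?_
    rw [LinearMap.ker_eq_bot]
    intro a b hab
    funext c
    exact IsFractionRing.injective (MvPowerSeries (Fin r) k) K (congrFun hab c)
  have hmv : ∀ (M : Matrix ι ι (MvPowerSeries (Fin r) k)) (u : ι → MvPowerSeries (Fin r) k),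
      M.map al *ᵥ (fun c => al (u c)) = fun c => al ((M *ᵥ u) c) := by
    intro M u
    funext c
    change ∑ a, al (M c a) * al (u a) = al (∑ a, M c a * u a)
    rw [map_sum]
    exact Finset.sum_congr rfl fun a _ => (map_mul _ _ _).symm
  have e2 : ∀ i, DK *ᵥ vK i = 0 := by
    intro i
    change (DD d x).map al *ᵥ (fun c => al (v i c)) = 0
    rw [hmv, hDv]
    funext c
    exact map_zero al
  have e3 : Fintype.card (Fin d.rank ⊕ Fin r) ≤ finrank K (LinearMap.ker DK.mulVecLin) := by
    let vs : Fin d.rank ⊕ Fin r → LinearMap.ker DK.mulVecLin := fun i => ⟨vK i, e2 i⟩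
    have : LinearIndependent K vs :=
      LinearIndependent.of_comp (LinearMap.ker DK.mulVecLin).subtype e1
    exact this.fintype_card_le_finrank
  rw [Fintype.card_sum, Fintype.card_fin, Fintype.card_fin] at e3
  have hX : al ((MvPowerSeries.X ⟨0, hr⟩ : MvPowerSeries (Fin r) k) ^ N) ≠ 0 := by
    rw [Ne, map_eq_zero_iff al (IsFractionRing.injective (MvPowerSeries (Fin r) k) K)]
    apply pow_ne_zero
    intro h0
    have := congrArg (MvPowerSeries.coeff (Finsupp.single ⟨0, hr⟩ 1)) h0
    rw [MvPowerSeries.coeff_index_single_self_X, MvPowerSeries.coeff_zero] at this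
    exact one_ne_zero this
  have e4 : LinearMap.ker DK.mulVecLin ≤ LinearMap.range DK.mulVecLin := by
    intro u hu
    have hu' : DK *ᵥ u = 0 := hu
    have e5 : DK * HK + HK * DK =
        al ((MvPowerSeries.X ⟨0, hr⟩ : MvPowerSeries (Fin r) k) ^ N) • 1 := by
      have e6 := congrArg (fun M : Matrix ι ι (MvPowerSeries (Fin r) k) => M.map al) hH
      rw [Matrix.map_add _ (map_add al), Matrix.map_mul, Matrix.map_mul] at e6
      rw [e6]
      ext i j
      rw [Matrix.map_apply, Matrix.smul_apply, Matrix.smul_apply, smul_eq_mul, smul_eq_mul, map_mul]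
      congr 1
      rw [Matrix.one_apply, Matrix.one_apply]
      split_ifs
      · exact map_one al
      · exact map_zero al
    refine ⟨(al ((MvPowerSeries.X ⟨0, hr⟩ : MvPowerSeries (Fin r) k) ^ N))⁻¹ • (HK *ᵥ u), ?_⟩
    change DK *ᵥ (_ • (HK *ᵥ u)) = u
    have e7 := congrArg (fun M => M *ᵥ u) e5
    simp only [add_mulVec, ← mulVec_mulVec, hu', mulVec_zero, add_zero, smul_mulVec,
      one_mulVec] at e7
    rw [mulVec_smul, e7, smul_smul, inv_mul_cancel₀ hX, one_smul]
  have e8 := Submodule.finrank_mono e4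
  have e9 := LinearMap.finrank_range_add_finrank_ker DK.mulVecLin
  rw [Module.finrank_fintype_fun_eq_card] at e9
  omega

end fin

end Pool.Agent.H54.Hb
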